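import Pool.Agent.Helper660_fall.Cube

/-!
The asymptotic form of the Harary-Livingston question: the ratio of the independent domination
number and the domination number of the hypercube `Q_k` tends to one.
-/

namespace Pool.Agent.Helper660_fall.AsymptoticEquality

open Finset Filter Topology

/-- `E` is a dominating set of the hypercube `Q_k` on `{0,1}^k`. -/
def Dominating (k : ℕ) (E : Finset (Fin k → Bool)) : Prop :=
  ∀ v : Fin k → Bool, v ∈ E ∨ ∃ u ∈ E, hammingDist u v = 1

/-- `E` is an independent set of the hypercube `Q_k` on `{0,1}^k`. -/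
def Independent (k : ℕ) (E : Finset (Fin k → Bool)) : Prop :=
  ∀ u ∈ E, ∀ v ∈ E, hammingDist u v ≠ 1

/-- The domination number of `Q_k`. -/
noncomputable def gam (k : ℕ) : ℕ :=
  sInf {n | ∃ E : Finset (Fin k → Bool), Dominating k E ∧ E.card = n}

/-- The independent domination number of `Q_k`. -/
noncomputable def indepDom (k : ℕ) : ℕ :=
  sInf {n | ∃ E : Finset (Fin k → Bool), Dominating k E ∧ Independent k E ∧ E.card = n}

theorem gam_spec (k : ℕ) : ∃ E : Finset (Fin k → Bool), Dominating k E ∧ E.card = gam k := by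
  have hne : {n | ∃ E : Finset (Fin k → Bool), Dominating k E ∧ E.card = n}.Nonempty :=
    ⟨_, univ, fun v => Or.inl (mem_univ v), rfl⟩
  exact Nat.sInf_mem hne

theorem gam_pos (k : ℕ) : 0 < gam k := by
  obtain ⟨E, hE, hc⟩ := gam_spec k
  rw [← hc, card_pos]
  rcases hE (fun _ => true) with h | ⟨u, hu, _⟩
  · exact ⟨_, h⟩
  · exact ⟨_, hu⟩

theorem indepDom_le {k : ℕ} {D : Finset (Fin k → Bool)} (h1 : Dominating k D)
    (h2 : Independent k D) : indepDom k ≤ D.card := Nat.sInf_le ⟨D, h1, h2, rfl⟩

/-- an independent dominating set exists -/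
theorem exists_indep (k : ℕ) : ∃ D : Finset (Fin k → Bool), Dominating k D ∧
    Independent k D := by
  classical
  obtain ⟨D, -, hmax⟩ := Finset.exists_le_maximal
    (univ.filter fun D : Finset (Fin k → Bool) => Independent k D) (a := ∅)
    (by
      rw [mem_filter]
      exact ⟨mem_univ _, fun u hu => absurd hu (notMem_empty u)⟩)
  have hD : Independent k D := by simpa using hmax.prop
  refine ⟨D, fun v => ?_, hD⟩
  by_contra hcon
  push Not at hcon
  have hins : Independent k (insert v D) := by
    intro a ha b hb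
    rw [mem_insert] at ha hb
    rcases ha with rfl | ha <;> rcases hb with rfl | hb
    · rw [hammingDist_self]; norm_num
    · rw [hammingDist_comm]; exact hcon.2 b hb
    · exact hcon.2 a ha
    · exact hD a ha b hb
  have h2 := hmax.le_of_ge (by simpa using hins) (subset_insert v D)
  exact hcon.1 (h2 (mem_insert_self v D))

theorem gam_le_indepDom (k : ℕ) : gam k ≤ indepDom k := by
  have hne : {n | ∃ E : Finset (Fin k → Bool), Dominating k E ∧ Independent k E ∧
      E.card = n}.Nonempty := by
    obtain ⟨D, h1, h2⟩ := exists_indep k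
    exact ⟨_, D, h1, h2, rfl⟩
  obtain ⟨E, h1, _, h3⟩ := Nat.sInf_mem hne
  exact Nat.sInf_le ⟨E, h1, h3⟩

/-- The independent domination number and the domination number of the hypercube are
asymptotically equal: `i(Q_k) / γ(Q_k) → 1` as `k → ∞`. -/
theorem result : Tendsto (fun k : ℕ => (indepDom k : ℝ) / (gam k : ℝ)) atTop (𝓝 1) := by
  rw [tendsto_order]
  constructor
  · intro a ha
    refine Eventually.of_forall fun k => lt_of_lt_of_le ha ?_
    have h0 : (0 : ℝ) < gam k := by exact_mod_cast gam_pos k
    rw [le_div_iff₀ h0, one_mul]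
    exact_mod_cast gam_le_indepDom k
  · intro a ha
    obtain ⟨k0, hk0⟩ := Helper660_fall.indep_near_optimal (show 0 < (a - 1) / 2 by linarith)
    filter_upwards [eventually_ge_atTop k0] with k hk
    obtain ⟨D, h1, h2, h3⟩ := hk0 k hk
    obtain ⟨E, hE, hc⟩ := gam_spec k
    have hs := Helper660_fall.sphere_bound hE
    rw [hc] at hs
    have hsr : (2 : ℝ) ^ k ≤ gam k * (k + 1) := by exact_mod_cast hs
    have h0 : (0 : ℝ) < gam k := by exact_mod_cast gam_pos k
    have hk1 : (0 : ℝ) < (k : ℝ) + 1 := by positivity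
    have hD : (indepDom k : ℝ) ≤ D.card := by exact_mod_cast indepDom_le h1 h2
    rw [div_lt_iff₀ h0]
    have h5 : (indepDom k : ℝ) * (k + 1) ≤ ((1 + (a - 1) / 2) * gam k) * (k + 1) := by
      calc (indepDom k : ℝ) * (k + 1) ≤ D.card * (k + 1) :=
            mul_le_mul_of_nonneg_right hD hk1.le
        _ ≤ (1 + (a - 1) / 2) * 2 ^ k := h3
        _ ≤ (1 + (a - 1) / 2) * (gam k * (k + 1)) :=
            mul_le_mul_of_nonneg_left hsr (by linarith)
        _ = ((1 + (a - 1) / 2) * gam k) * (k + 1) := by ring
    have h6 := le_of_mul_le_mul_right h5 hk1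
    nlinarith

end Pool.Agent.Helper660_fall.AsymptoticEquality
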