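import Pool.Agent.TH493.RBM.Density

/-!
Fall colourings of the cube (partitions into independent dominating sets): definitions, the
sum construction, one more dimension, and a fall 5-colouring of the 6-cube.
-/

namespace Pool.Agent.Helper660_fall

open Finset
open Pool.Agent.TH493.Boltz hiding flip

/-- `c` is a fall colouring of the cube `ι → Bool`: every vertex has a neighbour of every colour
other than its own, and no neighbour of its own colour. -/
def IsFall {ι C : Type} [DecidableEq ι] (c : (ι → Bool) → C) : Prop :=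
  (∀ v a, a ≠ c v → ∃ i, c (TH493.Boltz.flip v i) = a) ∧ ∀ v i, c (TH493.Boltz.flip v i) ≠ c v

/-- The cube of dimension `N` has a fall colouring with `P` colours. -/
def Fall (N P : ℕ) : Prop := ∃ c : (Fin N → Bool) → Fin P, IsFall c

theorem flip_equiv {ι ι' : Type} [DecidableEq ι] [DecidableEq ι'] (e : ι ≃ ι')
    (v : ι' → Bool) (i : ι) :
    (fun k => TH493.Boltz.flip v (e i) (e k)) = TH493.Boltz.flip (fun k => v (e k)) i :=
  flip_comp e.injective v i

theorem IsFall.transport {ι ι' C C' : Type} [DecidableEq ι] [DecidableEq ι'] (e : ι ≃ ι')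
    (f : C ≃ C') {c : (ι → Bool) → C} (h : IsFall c) :
    IsFall (fun v : ι' → Bool => f (c (fun k => v (e k)))) := by
  constructor
  · intro v a ha
    have h1 : f.symm a ≠ c (fun k => v (e k)) := by
      intro h2; apply ha
      show a = f (c fun k => v (e k))
      rw [← h2]; simp
    obtain ⟨i, hi⟩ := h.1 _ _ h1
    refine ⟨e i, ?_⟩
    simp only [flip_equiv, hi, Equiv.apply_symm_apply]
  · intro v i hi
    have h1 := f.injective hi
    obtain ⟨j, rfl⟩ := e.surjective i
    rw [flip_equiv] at h1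
    exact h.2 _ _ h1

theorem Fall.of {ι C : Type} [Fintype ι] [DecidableEq ι] [Fintype C]
    {c : (ι → Bool) → C} (h : IsFall c) {N P : ℕ} (hN : Fintype.card ι = N)
    (hP : Fintype.card C = P) : Fall N P := by
  classical
  subst hN hP
  exact ⟨_, h.transport (Fintype.equivFin ι) (Fintype.equivFin C)⟩

/-- coordinatewise exclusive or -/
def xorv {ι : Type} (u w : ι → Bool) : ι → Bool := fun i => xor (u i) (w i)

theorem xorv_flip_left {ι : Type} [DecidableEq ι] (u w : ι → Bool) (i : ι) :
    xorv (TH493.Boltz.flip u i) w = TH493.Boltz.flip (xorv u w) i := by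
  funext k
  by_cases hk : k = i
  · subst hk; simp [xorv, TH493.Boltz.flip]
  · simp [xorv, TH493.Boltz.flip, hk]

theorem xorv_flip_right {ι : Type} [DecidableEq ι] (u w : ι → Bool) (i : ι) :
    xorv u (TH493.Boltz.flip w i) = TH493.Boltz.flip (xorv u w) i := by
  funext k
  by_cases hk : k = i
  · subst hk; simp [xorv, TH493.Boltz.flip]
  · simp [xorv, TH493.Boltz.flip, hk]

/-- The sum of two colourings: dimension `2 N + 1`, colours add up. -/
noncomputable def sumCol {ι C C' : Type} [Fintype ι] [DecidableEq ι] (c : (ι → Bool) → C)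
    (c' : (ι → Bool) → C') (v : (ι ⊕ ι) ⊕ Unit → Bool) : C ⊕ C' :=
  if par (fun i : ι => v (Sum.inl (Sum.inr i))) + par (fun i : Unit => v (Sum.inr i)) = 0 then
    Sum.inl (c (xorv (fun i => v (Sum.inl (Sum.inl i))) (fun i => v (Sum.inl (Sum.inr i)))))
  else
    Sum.inr (c' (xorv (fun i => v (Sum.inl (Sum.inl i))) (fun i => v (Sum.inl (Sum.inr i)))))

theorem isFall_sumCol {ι C C' : Type} [Fintype ι] [DecidableEq ι] {c : (ι → Bool) → C}
    {c' : (ι → Bool) → C'} (h : IsFall c) (h' : IsFall c') : IsFall (sumCol c c') := by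
  classical
  let U : ((ι ⊕ ι) ⊕ Unit → Bool) → (ι → Bool) := fun v i => v (Sum.inl (Sum.inl i))
  let W : ((ι ⊕ ι) ⊕ Unit → Bool) → (ι → Bool) := fun v i => v (Sum.inl (Sum.inr i))
  let Y : ((ι ⊕ ι) ⊕ Unit → Bool) → (Unit → Bool) := fun v i => v (Sum.inr i)
  have hinjU : Function.Injective (fun i : ι => (Sum.inl (Sum.inl i) : (ι ⊕ ι) ⊕ Unit)) := by
    intro a b h; simpa using h
  have hinjW : Function.Injective (fun i : ι => (Sum.inl (Sum.inr i) : (ι ⊕ ι) ⊕ Unit)) := by
    intro a b h; simpa using h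
  have hinjY : Function.Injective (fun i : Unit => (Sum.inr i : (ι ⊕ ι) ⊕ Unit)) :=
    Sum.inr_injective
  have UU : ∀ v i, U (TH493.Boltz.flip v (Sum.inl (Sum.inl i))) = TH493.Boltz.flip (U v) i := fun v i =>
    flip_comp hinjU v i
  have UW : ∀ v i, U (TH493.Boltz.flip v (Sum.inl (Sum.inr i))) = U v := fun v i =>
    flip_comp_ne (fun k => by simp) v
  have UY : ∀ v i, U (TH493.Boltz.flip v (Sum.inr i)) = U v := fun v i =>
    flip_comp_ne (fun k => by simp) v
  have WU : ∀ v i, W (TH493.Boltz.flip v (Sum.inl (Sum.inl i))) = W v := fun v i =>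
    flip_comp_ne (fun k => by simp) v
  have WW : ∀ v i, W (TH493.Boltz.flip v (Sum.inl (Sum.inr i))) = TH493.Boltz.flip (W v) i := fun v i =>
    flip_comp hinjW v i
  have WY : ∀ v i, W (TH493.Boltz.flip v (Sum.inr i)) = W v := fun v i =>
    flip_comp_ne (fun k => by simp) v
  have YU : ∀ v i, Y (TH493.Boltz.flip v (Sum.inl (Sum.inl i))) = Y v := fun v i =>
    flip_comp_ne (fun k => by simp) v
  have YW : ∀ v i, Y (TH493.Boltz.flip v (Sum.inl (Sum.inr i))) = Y v := fun v i =>
    flip_comp_ne (fun k => by simp) v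
  have YY : ∀ v i, Y (TH493.Boltz.flip v (Sum.inr i)) = TH493.Boltz.flip (Y v) i := fun v i =>
    flip_comp hinjY v i
  have def1 : ∀ v, sumCol c c' v = if par (W v) + par (Y v) = 0 then
      Sum.inl (c (xorv (U v) (W v))) else Sum.inr (c' (xorv (U v) (W v))) := fun v => rfl
  have hall : ∀ t : ZMod 2, t ≠ 0 → t = 1 := by decide
  have h11 : (1 : ZMod 2) + 1 = 0 := by decide
  have h10 : (1 : ZMod 2) ≠ 0 := by decide
  -- values after the three kinds of flips
  have vU : ∀ v i, sumCol c c' (TH493.Boltz.flip v (Sum.inl (Sum.inl i))) =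
      if par (W v) + par (Y v) = 0 then Sum.inl (c (TH493.Boltz.flip (xorv (U v) (W v)) i))
      else Sum.inr (c' (TH493.Boltz.flip (xorv (U v) (W v)) i)) := by
    intro v i; rw [def1, WU, YU, UU, xorv_flip_left]
  have vW : ∀ v i, sumCol c c' (TH493.Boltz.flip v (Sum.inl (Sum.inr i))) =
      if par (W v) + par (Y v) = 0 then Sum.inr (c' (TH493.Boltz.flip (xorv (U v) (W v)) i))
      else Sum.inl (c (TH493.Boltz.flip (xorv (U v) (W v)) i)) := by
    intro v i
    rw [def1, WW, YW, UW, xorv_flip_right, par_flip]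
    by_cases h0 : par (W v) + par (Y v) = 0
    · rw [if_pos h0, if_neg]
      rw [add_right_comm, h0, zero_add]; exact h10
    · rw [if_neg h0, if_pos]
      rw [add_right_comm, hall _ h0]; exact h11
  have vY : ∀ v i, sumCol c c' (TH493.Boltz.flip v (Sum.inr i)) =
      if par (W v) + par (Y v) = 0 then Sum.inr (c' (xorv (U v) (W v)))
      else Sum.inl (c (xorv (U v) (W v))) := by
    intro v i
    rw [def1, WY, YY, UY, par_flip]
    by_cases h0 : par (W v) + par (Y v) = 0
    · rw [if_pos h0, if_neg]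
      rw [← add_assoc, h0, zero_add]; exact h10
    · rw [if_neg h0, if_pos]
      rw [← add_assoc, hall _ h0]; exact h11
  constructor
  · intro v a ha
    rw [def1] at ha
    by_cases h0 : par (W v) + par (Y v) = 0
    · rw [if_pos h0] at ha
      rcases a with b | b
      · have hb : b ≠ c (xorv (U v) (W v)) := fun h => ha (by rw [h])
        obtain ⟨i, hi⟩ := h.1 _ _ hb
        exact ⟨Sum.inl (Sum.inl i), by rw [vU, if_pos h0, hi]⟩
      · by_cases hb : b = c' (xorv (U v) (W v))
        · exact ⟨Sum.inr (), by rw [vY, if_pos h0, hb]⟩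
        · obtain ⟨i, hi⟩ := h'.1 _ _ hb
          exact ⟨Sum.inl (Sum.inr i), by rw [vW, if_pos h0, hi]⟩
    · rw [if_neg h0] at ha
      rcases a with b | b
      · by_cases hb : b = c (xorv (U v) (W v))
        · exact ⟨Sum.inr (), by rw [vY, if_neg h0, hb]⟩
        · obtain ⟨i, hi⟩ := h.1 _ _ hb
          exact ⟨Sum.inl (Sum.inr i), by rw [vW, if_neg h0, hi]⟩
      · have hb : b ≠ c' (xorv (U v) (W v)) := fun h => ha (by rw [h])
        obtain ⟨i, hi⟩ := h'.1 _ _ hb
        exact ⟨Sum.inl (Sum.inl i), by rw [vU, if_neg h0, hi]⟩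
  · rintro v ((i | i) | i)
    · rw [vU, def1]
      by_cases h0 : par (W v) + par (Y v) = 0
      · rw [if_pos h0, if_pos h0]
        intro he; exact h.2 _ _ (Sum.inl_injective he)
      · rw [if_neg h0, if_neg h0]
        intro he; exact h'.2 _ _ (Sum.inr_injective he)
    · rw [vW, def1]
      by_cases h0 : par (W v) + par (Y v) = 0
      · rw [if_pos h0, if_pos h0]; simp
      · rw [if_neg h0, if_neg h0]; simp
    · rw [vY, def1]
      by_cases h0 : par (W v) + par (Y v) = 0
      · rw [if_pos h0, if_pos h0]; simp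
      · rw [if_neg h0, if_neg h0]; simp

theorem Fall.sum {N P P' : ℕ} (h : Fall N P) (h' : Fall N P') : Fall (2 * N + 1) (P + P') := by
  obtain ⟨c, hc⟩ := h
  obtain ⟨c', hc'⟩ := h'
  refine Fall.of (isFall_sumCol hc hc') ?_ ?_
  · simp [Fintype.card_sum]; ring
  · simp [Fintype.card_sum]

theorem Fall.succ {N P : ℕ} (h : Fall N P) (hP : 2 ≤ P) : Fall (N + 1) P := by
  classical
  obtain ⟨m, rfl⟩ : ∃ m, P = m + 2 := ⟨P - 2, by omega⟩
  obtain ⟨c, hc⟩ := h
  let C : (Fin N ⊕ Unit → Bool) → Fin (m + 2) := fun v =>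
    c (fun i => v (Sum.inl i)) + (if v (Sum.inr ()) then 1 else 0)
  have hC : IsFall C := by
    have e1 : ∀ (v : Fin N ⊕ Unit → Bool) (i : Fin N),
        (fun k => TH493.Boltz.flip v (Sum.inl i) (Sum.inl k)) = TH493.Boltz.flip (fun k => v (Sum.inl k)) i :=
      fun v i => flip_comp Sum.inl_injective v i
    have e2 : ∀ (v : Fin N ⊕ Unit → Bool) (i : Unit),
        (fun k : Fin N => TH493.Boltz.flip v (Sum.inr i) (Sum.inl k)) = fun k => v (Sum.inl k) :=
      fun v i => flip_comp_ne (fun k => by simp) v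
    constructor
    · intro v a ha
      have hne : a - (if v (Sum.inr ()) then 1 else 0) ≠ c (fun i => v (Sum.inl i)) := by
        intro h1; apply ha; show a = _ + _; rw [← h1]; abel
      obtain ⟨i, hi⟩ := hc.1 _ _ hne
      refine ⟨Sum.inl i, ?_⟩
      show c (fun k => TH493.Boltz.flip v (Sum.inl i) (Sum.inl k)) +
        (if TH493.Boltz.flip v (Sum.inl i) (Sum.inr ()) then 1 else 0) = a
      rw [e1, hi, flip_ne _ (by simp)]
      abel
    · rintro v (i | i) hi
      · have h1 : c (fun k => TH493.Boltz.flip v (Sum.inl i) (Sum.inl k)) +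
          (if TH493.Boltz.flip v (Sum.inl i) (Sum.inr ()) then 1 else 0) =
          c (fun i => v (Sum.inl i)) + (if v (Sum.inr ()) then 1 else 0) := hi
        rw [e1, flip_ne _ (by simp)] at h1
        exact hc.2 _ _ (add_right_cancel h1)
      · have h1 : c (fun k => TH493.Boltz.flip v (Sum.inr i) (Sum.inl k)) +
          (if TH493.Boltz.flip v (Sum.inr i) (Sum.inr ()) then 1 else 0) =
          c (fun i => v (Sum.inl i)) + (if v (Sum.inr ()) then 1 else 0) := hi
        rw [e2] at h1
        have h2 := add_left_cancel h1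
        have h3 : TH493.Boltz.flip v (Sum.inr i) (Sum.inr ()) = !(v (Sum.inr ())) := flip_self v _
        rw [h3] at h2
        have h01 : (1 : Fin (m + 2)) ≠ 0 := by
          intro h; exact absurd (congrArg Fin.val h) (by simp)
        cases hv : v (Sum.inr ())
        · rw [hv] at h2; exact h01 (by simpa using h2)
        · rw [hv] at h2; exact h01 (by simpa using h2.symm)
  exact Fall.of hC (by simp) (by simp)

theorem Fall.mono {N N' P : ℕ} (h : Fall N P) (hP : 2 ≤ P) (hN : N ≤ N') : Fall N' P := by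
  induction N', hN using Nat.le_induction with
  | base => exact h
  | succ n _ ih => exact ih.succ hP

theorem fall_zero : Fall 0 1 :=
  ⟨fun _ => 0, fun v a ha => absurd (Subsingleton.elim a _) ha, fun _ i => i.elim0⟩

/-- table of a fall colouring of the 6-cube with five colours -/
def tab65 : List ℕ := [4, 1, 3, 0, 2, 0, 0, 4, 0, 2, 2, 4, 4, 3, 1, 2, 0, 3, 4, 2, 1, 4, 3, 1,
  3, 4, 1, 3, 2, 1, 4, 0, 0, 4, 1, 2, 3, 1, 4, 3, 1, 3, 4, 1, 2, 4, 3, 0, 2, 1, 3, 4, 4, 2,
  2, 0, 4, 0, 0, 2, 0, 3, 1, 4]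

/-- the coordinate of `x` as a 6-bit number -/
def bits6 (x : Fin 64) (i : Fin 6) : Bool := Nat.testBit x.val i.val

def num6 (v : Fin 6 → Bool) : ℕ :=
  (if v 0 then 1 else 0) + (if v 1 then 2 else 0) + (if v 2 then 4 else 0) +
  (if v 3 then 8 else 0) + (if v 4 then 16 else 0) + (if v 5 then 32 else 0)

def col65 (v : Fin 6 → Bool) : Fin 5 := Fin.ofNat 5 (tab65.getD (num6 v) 0)

theorem isFall_col65 : IsFall col65 := by
  unfold IsFall
  decide +kernel

theorem fall_six_five : Fall 6 5 := ⟨col65, isFall_col65⟩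

end Pool.Agent.Helper660_fall
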