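import Pool.Agent.Helper660_fall.Codes

/-!
An independent dominating set with 216 elements in the 11-cube.
-/

namespace Pool.Agent.Helper660_fall

open Finset
open Pool.Agent.TH493.Boltz hiding flip

theorem ofBits_flip {r : ℕ} (v : Fin r → Bool) (i : Fin r) :
    Nat.ofBits (TH493.Boltz.flip v i) = Nat.ofBits v ^^^ 2 ^ (i : ℕ) := by
  apply Nat.eq_of_testBit_eq
  intro j
  rw [Nat.testBit_xor, Nat.testBit_two_pow]
  by_cases hj : j < r
  · rw [Nat.testBit_ofBits_lt _ _ hj, Nat.testBit_ofBits_lt _ _ hj]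
    by_cases hji : (i : ℕ) = j
    · have : (⟨j, hj⟩ : Fin r) = i := Fin.ext hji.symm
      rw [this, flip_self, decide_eq_true hji]
      cases v i <;> rfl
    · rw [flip_ne _ (fun h => hji (congrArg Fin.val h).symm), decide_eq_false hji]
      cases v ⟨j, hj⟩ <;> rfl
  · rw [Nat.testBit_ofBits_ge _ _ (by omega), Nat.testBit_ofBits_ge _ _ (by omega),
      decide_eq_false (by omega)]
    rfl

theorem ofBits_inj {r : ℕ} {v w : Fin r → Bool} (h : Nat.ofBits v = Nat.ofBits w) : v = w := by
  funext i
  have := congrArg (fun x => Nat.testBit x i.val) h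
  simpa using this

/-- An independent dominating set of the cube of dimension `r + 2` from one in the Cayley graph
of the group of `r`-bit numbers with generators `2 ^ i`, `a`, `b`. -/
theorem hasID_quot {r a b k : ℕ} (P : ℕ → Bool) (ha : a < 2 ^ r) (hb : b < 2 ^ r)
    (hdom : ∀ y < 2 ^ r, P y = true ∨ (∃ i < r, P (y ^^^ 2 ^ i) = true) ∨
      P (y ^^^ a) = true ∨ P (y ^^^ b) = true)
    (hind : ∀ y < 2 ^ r, P y = true → (∀ i < r, P (y ^^^ 2 ^ i) = false) ∧
      P (y ^^^ a) = false ∧ P (y ^^^ b) = false)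
    (hcard : ((range (2 ^ r)).filter fun y => P y = true).card ≤ k) :
    HasID (r + 2) (4 * k) := by
  classical
  let z : Bool → ℕ → ℕ := fun t g => if t then g else 0
  let syn : (Fin r ⊕ Bool → Bool) → ℕ := fun v =>
    Nat.ofBits (fun i => v (Sum.inl i)) ^^^ (z (v (Sum.inr false)) a ^^^ z (v (Sum.inr true)) b)
  have hz : ∀ t g, z (!t) g = z t g ^^^ g := by
    intro t g; cases t <;> simp [z]
  have e1 : ∀ (v : Fin r ⊕ Bool → Bool) (i : Fin r),
      (fun k => TH493.Boltz.flip v (Sum.inl i) (Sum.inl k)) =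
        TH493.Boltz.flip (fun k => v (Sum.inl k)) i :=
    fun v i => flip_comp Sum.inl_injective v i
  have e2 : ∀ (v : Fin r ⊕ Bool → Bool) (t : Bool),
      (fun k : Fin r => TH493.Boltz.flip v (Sum.inr t) (Sum.inl k)) = fun k => v (Sum.inl k) :=
    fun v t => flip_comp_ne (fun k => by simp) v
  have s1 : ∀ v (i : Fin r), syn (TH493.Boltz.flip v (Sum.inl i)) = syn v ^^^ 2 ^ (i : ℕ) := by
    intro v i
    show Nat.ofBits (fun k => TH493.Boltz.flip v (Sum.inl i) (Sum.inl k)) ^^^
      (z (TH493.Boltz.flip v (Sum.inl i) (Sum.inr false)) a ^^^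
        z (TH493.Boltz.flip v (Sum.inl i) (Sum.inr true)) b) = _
    rw [e1, ofBits_flip, flip_ne _ (by simp), flip_ne _ (by simp)]
    show _ = Nat.ofBits (fun i => v (Sum.inl i)) ^^^
      (z (v (Sum.inr false)) a ^^^ z (v (Sum.inr true)) b) ^^^ 2 ^ (i : ℕ)
    rw [Nat.xor_assoc, Nat.xor_assoc, Nat.xor_comm (2 ^ (i : ℕ))]
  have s2 : ∀ v, syn (TH493.Boltz.flip v (Sum.inr false)) = syn v ^^^ a := by
    intro v
    show Nat.ofBits (fun k => TH493.Boltz.flip v (Sum.inr false) (Sum.inl k)) ^^^
      (z (TH493.Boltz.flip v (Sum.inr false) (Sum.inr false)) a ^^^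
        z (TH493.Boltz.flip v (Sum.inr false) (Sum.inr true)) b) = _
    rw [e2, flip_self, hz, flip_ne _ (by simp)]
    show _ = Nat.ofBits (fun i => v (Sum.inl i)) ^^^
      (z (v (Sum.inr false)) a ^^^ z (v (Sum.inr true)) b) ^^^ a
    rw [Nat.xor_assoc, Nat.xor_assoc, Nat.xor_comm a]
    rw [Nat.xor_assoc]
  have s3 : ∀ v, syn (TH493.Boltz.flip v (Sum.inr true)) = syn v ^^^ b := by
    intro v
    show Nat.ofBits (fun k => TH493.Boltz.flip v (Sum.inr true) (Sum.inl k)) ^^^
      (z (TH493.Boltz.flip v (Sum.inr true) (Sum.inr false)) a ^^^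
        z (TH493.Boltz.flip v (Sum.inr true) (Sum.inr true)) b) = _
    rw [e2, flip_self, hz, flip_ne _ (by simp)]
    show _ = Nat.ofBits (fun i => v (Sum.inl i)) ^^^
      (z (v (Sum.inr false)) a ^^^ z (v (Sum.inr true)) b) ^^^ b
    rw [Nat.xor_assoc, Nat.xor_assoc]
  have hlt : ∀ v, syn v < 2 ^ r := by
    intro v
    have hz' : ∀ t g, g < 2 ^ r → z t g < 2 ^ r := by
      intro t g hg; cases t
      · exact Nat.two_pow_pos r
      · exact hg
    exact Nat.xor_lt_two_pow (Nat.ofBits_lt_two_pow _)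
      (Nat.xor_lt_two_pow (hz' _ _ ha) (hz' _ _ hb))
  let D : Finset (Fin r ⊕ Bool → Bool) := univ.filter fun v => P (syn v) = true
  have hmem : ∀ v, v ∈ D ↔ P (syn v) = true := by intro v; simp [D]
  have hD : IsID D := by
    constructor
    · intro v
      rcases hdom (syn v) (hlt v) with h | ⟨i, hi, h⟩ | h | h
      · exact Or.inl ((hmem v).mpr h)
      · exact Or.inr ⟨Sum.inl ⟨i, hi⟩, (hmem _).mpr (by rw [s1]; exact h)⟩
      · exact Or.inr ⟨Sum.inr false, (hmem _).mpr (by rw [s2]; exact h)⟩
      · exact Or.inr ⟨Sum.inr true, (hmem _).mpr (by rw [s3]; exact h)⟩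
    · intro v hv i h2
      obtain ⟨g1, g2, g3⟩ := hind _ (hlt v) ((hmem v).mp hv)
      have h3 := (hmem _).mp h2
      rcases i with i | (_ | _)
      · rw [s1, g1 i.val i.isLt] at h3; exact absurd h3 (by simp)
      · rw [s2, g2] at h3; exact absurd h3 (by simp)
      · rw [s3, g3] at h3; exact absurd h3 (by simp)
  have hcD : D.card ≤ 4 * k := by
    have hinj : D.card ≤ (((range (2 ^ r)).filter fun y => P y = true) ×ˢ
        ((univ : Finset Bool) ×ˢ (univ : Finset Bool))).card := by
      refine card_le_card_of_injOn (fun v => (syn v, v (Sum.inr false), v (Sum.inr true))) ?_ ?_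
      · intro v hv
        have h1 := (hmem v).mp hv
        simp [h1, hlt v]
      · intro v _ w _ hvw
        simp only [Prod.mk.injEq] at hvw
        obtain ⟨h1, h2, h3⟩ := hvw
        have h1' : Nat.ofBits (fun i => v (Sum.inl i)) ^^^
            (z (v (Sum.inr false)) a ^^^ z (v (Sum.inr true)) b) =
            Nat.ofBits (fun i => w (Sum.inl i)) ^^^
            (z (w (Sum.inr false)) a ^^^ z (w (Sum.inr true)) b) := h1
        rw [h2, h3] at h1'
        have h4 := Nat.xor_left_injective h1'
        have h5 := ofBits_inj h4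
        funext i
        rcases i with i | (_ | _)
        · exact congrFun h5 i
        · exact h2
        · exact h3
    rw [card_product, card_product] at hinj
    simp only [card_univ, Fintype.card_bool] at hinj
    omega
  exact HasID.of hD (by simp) hcD

/-- a set of 54 numbers below 512, as a bit mask -/
def mask9 : ℕ := 216043780148969634395088967159500264679737683747065722065913647835371472916201328351921976521043441610809316371771325062637509248732815076435690545758744

theorem hasID_eleven : HasID 11 216 := by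
  refine hasID_quot (r := 9) (a := 482) (b := 248) (k := 54) (fun y => mask9.testBit y)
    (by norm_num) (by norm_num) ?_ ?_ ?_
  · decide +kernel
  · decide +kernel
  · decide +kernel

end Pool.Agent.Helper660_fall
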