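import Pool.Agent.Helper660_fall.Cube

/-!
Independent dominating sets of cubes: doubling, one more dimension, and small examples.
-/

namespace Pool.Agent.Helper660_fall

open Finset
open Pool.Agent.TH493.Boltz hiding flip

/-- `D` is an independent dominating set of the cube `ι → Bool`. -/
def IsID {ι : Type} [DecidableEq ι] (D : Finset (ι → Bool)) : Prop :=
  (∀ v, v ∈ D ∨ ∃ i, TH493.Boltz.flip v i ∈ D) ∧ ∀ v ∈ D, ∀ i, TH493.Boltz.flip v i ∉ D

/-- There is an independent dominating set with at most `M` elements in dimension `N`. -/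
def HasID (N M : ℕ) : Prop := ∃ D : Finset (Fin N → Bool), IsID D ∧ D.card ≤ M

theorem HasID.of {ι : Type} [Fintype ι] [DecidableEq ι] {D : Finset (ι → Bool)} (h : IsID D)
    {N M : ℕ} (hN : Fintype.card ι = N) (hM : D.card ≤ M) : HasID N M := by
  classical
  subst hN
  let e := Fintype.equivFin ι
  let g : (ι → Bool) ≃ (Fin (Fintype.card ι) → Bool) := e.arrowCongr (Equiv.refl Bool)
  have hg : ∀ v i, g (TH493.Boltz.flip v i) = TH493.Boltz.flip (g v) (e i) := by
    intro v i
    funext j
    show TH493.Boltz.flip v i (e.symm j) = TH493.Boltz.flip (g v) (e i) j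
    by_cases hj : j = e i
    · subst hj
      rw [Equiv.symm_apply_apply, flip_self, flip_self]
      show _ = !(v (e.symm (e i)))
      rw [Equiv.symm_apply_apply]
    · rw [flip_ne _ hj, flip_ne]
      · rfl
      · intro h; exact hj (by rw [← h, Equiv.apply_symm_apply])
  refine ⟨D.map g.toEmbedding, ⟨fun v => ?_, fun v hv i => ?_⟩, by rwa [card_map]⟩
  · obtain ⟨w, rfl⟩ := g.surjective v
    rcases h.1 w with hw | ⟨i, hi⟩
    · left; exact mem_map_of_mem _ hw
    · right
      refine ⟨e i, ?_⟩
      rw [← hg]; exact mem_map_of_mem _ hi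
  · obtain ⟨w, rfl⟩ := g.surjective v
    obtain ⟨j, rfl⟩ := e.surjective i
    rw [← hg]
    intro h2
    have h3 : w ∈ D := by
      obtain ⟨a, ha, hb⟩ := mem_map.mp hv
      have : a = w := g.injective hb
      rwa [this] at ha
    have h4 : TH493.Boltz.flip w j ∈ D := by
      obtain ⟨a, ha, hb⟩ := mem_map.mp h2
      have : a = TH493.Boltz.flip w j := g.injective hb
      rwa [this] at ha
    exact h.2 w h3 j h4

theorem HasID.mono {N M M' : ℕ} (h : HasID N M) (hM : M ≤ M') : HasID N M' := by
  obtain ⟨D, h1, h2⟩ := h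
  exact ⟨D, h1, h2.trans hM⟩

theorem HasID.code {k M : ℕ} (h : HasID k M) : ∃ D : Finset (Fin k → Bool),
    (∀ v : Fin k → Bool, v ∈ D ∨ ∃ u ∈ D, hammingDist u v = 1) ∧
    (∀ u ∈ D, ∀ v ∈ D, hammingDist u v ≠ 1) ∧ D.card ≤ M := by
  obtain ⟨D, ⟨h1, h2⟩, h3⟩ := h
  refine ⟨D, fun v => ?_, fun u hu v hv huv => ?_, h3⟩
  · rcases h1 v with h | ⟨i, hi⟩
    · exact Or.inl h
    · exact Or.inr ⟨_, hi, hammingDist_flip v i⟩
  · obtain ⟨i, rfl⟩ := exists_flip_of_hammingDist huv
    exact h2 v hv i hu

theorem Fall.hasID {N P M : ℕ} (h : Fall N P) (hM : 2 ^ N < (M + 1) * P) : HasID N M := by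
  obtain ⟨D, h1, h2, h3⟩ := h.code
  refine ⟨D, ⟨fun v => ?_, fun v hv i hi => ?_⟩, ?_⟩
  · rcases h1 v with h | ⟨u, hu, huv⟩
    · exact Or.inl h
    · obtain ⟨i, rfl⟩ := exists_flip_of_hammingDist huv
      exact Or.inr ⟨i, hu⟩
  · exact h2 _ hi v hv (hammingDist_flip v i)
  · by_contra hcon
    have : (M + 1) * P ≤ D.card * P := Nat.mul_le_mul_right _ (by omega)
    omega

/-- One more dimension. -/
theorem HasID.succ {N M : ℕ} (h : HasID N M) (hN : 0 < N) : HasID (N + 1) (2 * M) := by
  classical
  obtain ⟨D, hD, hc⟩ := h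
  let i0 : Fin N := ⟨0, hN⟩
  let X : (Fin N ⊕ Unit → Bool) → (Fin N → Bool) := fun v =>
    if v (Sum.inr ()) then TH493.Boltz.flip (fun k => v (Sum.inl k)) i0 else
      fun k => v (Sum.inl k)
  have e1 : ∀ (v : Fin N ⊕ Unit → Bool) (i : Fin N),
      (fun k => TH493.Boltz.flip v (Sum.inl i) (Sum.inl k)) =
        TH493.Boltz.flip (fun k => v (Sum.inl k)) i :=
    fun v i => flip_comp Sum.inl_injective v i
  have e2 : ∀ (v : Fin N ⊕ Unit → Bool) (i : Unit),
      (fun k : Fin N => TH493.Boltz.flip v (Sum.inr i) (Sum.inl k)) = fun k => v (Sum.inl k) :=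
    fun v i => flip_comp_ne (fun k => by simp) v
  have hcomm : ∀ (u : Fin N → Bool) (i j : Fin N),
      TH493.Boltz.flip (TH493.Boltz.flip u i) j = TH493.Boltz.flip (TH493.Boltz.flip u j) i := by
    intro u i j
    by_cases hij : i = j
    · subst hij; rfl
    · funext k
      by_cases hki : k = i
      · subst hki
        rw [flip_ne _ hij, flip_self, flip_self, flip_ne _ hij]
      · by_cases hkj : k = j
        · subst hkj
          rw [flip_self, flip_ne _ hki, flip_ne _ hki, flip_self]
        · rw [flip_ne _ hkj, flip_ne _ hki, flip_ne _ hki, flip_ne _ hkj]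
  have X1 : ∀ v i, X (TH493.Boltz.flip v (Sum.inl i)) = TH493.Boltz.flip (X v) i := by
    intro v i
    show (if TH493.Boltz.flip v (Sum.inl i) (Sum.inr ()) then _ else _) = _
    rw [flip_ne _ (by simp), e1]
    show _ = TH493.Boltz.flip (if v (Sum.inr ()) then _ else _) i
    split_ifs with hv
    · exact hcomm _ _ _
    · rfl
  have X2 : ∀ v, X (TH493.Boltz.flip v (Sum.inr ())) = TH493.Boltz.flip (X v) i0 := by
    intro v
    show (if TH493.Boltz.flip v (Sum.inr ()) (Sum.inr ()) then _ else _) = _
    rw [flip_self, e2]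
    show _ = TH493.Boltz.flip (if v (Sum.inr ()) then _ else _) i0
    cases hv : v (Sum.inr ())
    · simp
    · simp only [Bool.not_true, if_true, Bool.false_eq_true, if_false]
      rw [TH493.Boltz.flip_flip]
  let D' : Finset (Fin N ⊕ Unit → Bool) := univ.filter fun v => X v ∈ D
  have hD' : IsID D' := by
    constructor
    · intro v
      rcases hD.1 (X v) with h | ⟨i, hi⟩
      · left; simpa [D'] using h
      · right; exact ⟨Sum.inl i, by simpa [D', X1] using hi⟩
    · rintro v hv (i | i) h2
      · simp only [D', mem_filter, mem_univ, true_and, X1] at hv h2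
        exact hD.2 _ hv _ h2
      · simp only [D', mem_filter, mem_univ, true_and] at hv h2
        rw [show i = () from rfl, X2] at h2
        exact hD.2 _ hv _ h2
  have hcard : D'.card ≤ 2 * M := by
    have hinj : D'.card ≤ (D ×ˢ (univ : Finset Bool)).card := by
      refine card_le_card_of_injOn (fun v => (X v, v (Sum.inr ()))) ?_ ?_
      · intro v hv
        have : X v ∈ D := by simpa [D'] using hv
        simpa using this
      · intro v _ w _ hvw
        simp only [Prod.mk.injEq] at hvw
        obtain ⟨h1, h2⟩ := hvw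
        have h3 : (fun k => v (Sum.inl k)) = fun k : Fin N => w (Sum.inl k) := by
          have h1' : (if v (Sum.inr ()) then TH493.Boltz.flip (fun k => v (Sum.inl k)) i0 else
              fun k => v (Sum.inl k)) = (if w (Sum.inr ()) then
              TH493.Boltz.flip (fun k => w (Sum.inl k)) i0 else fun k => w (Sum.inl k)) := h1
          rw [h2] at h1'
          split_ifs at h1' with hw
          · have := congrArg (fun u => TH493.Boltz.flip u i0) h1'
            simpa only [TH493.Boltz.flip_flip] using this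
          · exact h1'
        funext k
        rcases k with k | k
        · exact congrFun h3 k
        · exact h2
    rw [card_product] at hinj
    simp only [card_univ, Fintype.card_bool] at hinj
    omega
  exact HasID.of hD' (by simp) hcard

/-- Doubling. -/
theorem HasID.double {N M : ℕ} (h : HasID N M) : HasID (2 * N + 1) (2 ^ N * M) := by
  classical
  obtain ⟨D, hD, hc⟩ := h
  let U : ((Fin N ⊕ Fin N) ⊕ Unit → Bool) → (Fin N → Bool) := fun v i => v (Sum.inl (Sum.inl i))
  let W : ((Fin N ⊕ Fin N) ⊕ Unit → Bool) → (Fin N → Bool) := fun v i => v (Sum.inl (Sum.inr i))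
  let Y : ((Fin N ⊕ Fin N) ⊕ Unit → Bool) → (Unit → Bool) := fun v i => v (Sum.inr i)
  have hinjU : Function.Injective
      (fun i : Fin N => (Sum.inl (Sum.inl i) : (Fin N ⊕ Fin N) ⊕ Unit)) := by
    intro a b h; simpa using h
  have hinjW : Function.Injective
      (fun i : Fin N => (Sum.inl (Sum.inr i) : (Fin N ⊕ Fin N) ⊕ Unit)) := by
    intro a b h; simpa using h
  have hinjY : Function.Injective (fun i : Unit => (Sum.inr i : (Fin N ⊕ Fin N) ⊕ Unit)) :=
    Sum.inr_injective
  have UU : ∀ v i, U (TH493.Boltz.flip v (Sum.inl (Sum.inl i))) = TH493.Boltz.flip (U v) i :=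
    fun v i => flip_comp hinjU v i
  have UW : ∀ v i, U (TH493.Boltz.flip v (Sum.inl (Sum.inr i))) = U v := fun v i =>
    flip_comp_ne (fun k => by simp) v
  have UY : ∀ v i, U (TH493.Boltz.flip v (Sum.inr i)) = U v := fun v i =>
    flip_comp_ne (fun k => by simp) v
  have WU : ∀ v i, W (TH493.Boltz.flip v (Sum.inl (Sum.inl i))) = W v := fun v i =>
    flip_comp_ne (fun k => by simp) v
  have WW : ∀ v i, W (TH493.Boltz.flip v (Sum.inl (Sum.inr i))) = TH493.Boltz.flip (W v) i :=
    fun v i => flip_comp hinjW v i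
  have WY : ∀ v i, W (TH493.Boltz.flip v (Sum.inr i)) = W v := fun v i =>
    flip_comp_ne (fun k => by simp) v
  have YU : ∀ v i, Y (TH493.Boltz.flip v (Sum.inl (Sum.inl i))) = Y v := fun v i =>
    flip_comp_ne (fun k => by simp) v
  have YW : ∀ v i, Y (TH493.Boltz.flip v (Sum.inl (Sum.inr i))) = Y v := fun v i =>
    flip_comp_ne (fun k => by simp) v
  have YY : ∀ v i, Y (TH493.Boltz.flip v (Sum.inr i)) = TH493.Boltz.flip (Y v) i := fun v i =>
    flip_comp hinjY v i
  have hall : ∀ t : ZMod 2, t ≠ 0 → t = 1 := by decide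
  have h11 : (1 : ZMod 2) + 1 = 0 := by decide
  have h10 : (1 : ZMod 2) ≠ 0 := by decide
  let D' : Finset ((Fin N ⊕ Fin N) ⊕ Unit → Bool) := univ.filter fun v =>
    par (W v) + par (Y v) = 0 ∧ xorv (U v) (W v) ∈ D
  have hmem : ∀ v, v ∈ D' ↔ par (W v) + par (Y v) = 0 ∧ xorv (U v) (W v) ∈ D := by
    intro v; simp [D']
  have hD' : IsID D' := by
    constructor
    · intro v
      by_cases h0 : par (W v) + par (Y v) = 0
      · rcases hD.1 (xorv (U v) (W v)) with h | ⟨i, hi⟩
        · exact Or.inl ((hmem v).mpr ⟨h0, h⟩)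
        · refine Or.inr ⟨Sum.inl (Sum.inl i), (hmem _).mpr ⟨?_, ?_⟩⟩
          · rw [WU, YU]; exact h0
          · rw [UU, WU, xorv_flip_left]; exact hi
      · right
        rcases hD.1 (xorv (U v) (W v)) with h | ⟨i, hi⟩
        · refine ⟨Sum.inr (), (hmem _).mpr ⟨?_, ?_⟩⟩
          · rw [WY, YY, par_flip, ← add_assoc, hall _ h0]; exact h11
          · rw [UY, WY]; exact h
        · refine ⟨Sum.inl (Sum.inr i), (hmem _).mpr ⟨?_, ?_⟩⟩
          · rw [WW, YW, par_flip, add_right_comm, hall _ h0]; exact h11
          · rw [UW, WW, xorv_flip_right]; exact hi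
    · rintro v hv ((i | i) | i) h2
      · have hv' := (hmem v).mp hv
        have h2' := (hmem _).mp h2
        rw [UU, WU, xorv_flip_left] at h2'
        exact hD.2 _ hv'.2 _ h2'.2
      · have hv' := (hmem v).mp hv
        have h2' := (hmem _).mp h2
        rw [WW, YW, par_flip, add_right_comm, hv'.1, zero_add] at h2'
        exact h10 h2'.1
      · have hv' := (hmem v).mp hv
        have h2' := (hmem _).mp h2
        rw [WY, YY, par_flip, ← add_assoc, hv'.1, zero_add] at h2'
        exact h10 h2'.1
  have hxx : ∀ u w : Fin N → Bool, xorv (xorv u w) w = u := by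
    intro u w; funext k; simp [xorv]
  have hcard : D'.card ≤ 2 ^ N * M := by
    have hinj : D'.card ≤ ((univ : Finset (Fin N → Bool)) ×ˢ D).card := by
      refine card_le_card_of_injOn (fun v => (W v, xorv (U v) (W v))) ?_ ?_
      · intro v hv
        have := ((hmem v).mp hv).2
        simpa using this
      · intro v hv w hw hvw
        simp only [Prod.mk.injEq] at hvw
        obtain ⟨h1, h2⟩ := hvw
        have h3 : U v = U w := by
          rw [h1] at h2
          have := congrArg (fun u => xorv u (W w)) h2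
          simpa [hxx] using this
        have h4 : Y v = Y w := by
          have a1 := ((hmem v).mp hv).1
          have a2 := ((hmem w).mp hw).1
          rw [h1] at a1
          have a3 : par (Y v) = par (Y w) := add_left_cancel (a1.trans a2.symm)
          have hpar : ∀ y : Unit → Bool, par y = if y () then 1 else 0 := by
            intro y; exact Fintype.sum_unique _
          rw [hpar, hpar] at a3
          funext u
          rw [show u = () from rfl]
          cases hy : Y v () <;> cases hy' : Y w () <;> simp [hy, hy'] at a3 ⊢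
        funext k
        rcases k with (k | k) | k
        · exact congrFun h3 k
        · exact congrFun h1 k
        · exact congrFun h4 k
    rw [card_product] at hinj
    simp only [card_univ, Fintype.card_fun, Fintype.card_bool, Fintype.card_fin] at hinj
    exact hinj.trans (Nat.mul_le_mul_left _ hc)
  exact HasID.of hD' (by simp; ring) hcard

/-! ### small examples -/

def mask6 : ℕ := 2 ^ 59 + 2 ^ 4 + 2 ^ 39 + 2 ^ 17 + 2 ^ 61 + 2 ^ 46 + 2 ^ 2 + 2 ^ 24 + 2 ^ 48 +
  2 ^ 15 + 2 ^ 22 + 2 ^ 41

def code6 : Finset (Fin 6 → Bool) := univ.filter fun v => mask6.testBit (num6 v)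

theorem isID_code6 : IsID code6 := by
  unfold IsID
  decide +kernel

theorem card_code6 : code6.card = 12 := by decide +kernel

theorem hasID_six : HasID 6 12 := ⟨code6, isID_code6, card_code6.le⟩

end Pool.Agent.Helper660_fall
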