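import Pool.Agent.Helper660_fall.Dense

/-!
Fall colourings give small independent dominating sets of the cube; the sphere covering bound.
-/

namespace Pool.Agent.Helper660_fall

open Finset Filter Topology
open Pool.Agent.TH493.Boltz hiding flip

theorem hammingDist_flip {k : ℕ} (v : Fin k → Bool) (i : Fin k) :
    hammingDist (TH493.Boltz.flip v i) v = 1 := by
  unfold hammingDist
  have : (univ.filter fun j => TH493.Boltz.flip v i j ≠ v j) = {i} := by
    ext j
    simp only [mem_filter, mem_univ, true_and, mem_singleton]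
    constructor
    · intro h
      by_contra hj
      exact h (flip_ne v hj)
    · rintro rfl
      rw [flip_self]
      cases v j <;> simp
  rw [this, card_singleton]

theorem exists_flip_of_hammingDist {k : ℕ} {u v : Fin k → Bool} (h : hammingDist u v = 1) :
    ∃ i, u = TH493.Boltz.flip v i := by
  unfold hammingDist at h
  obtain ⟨i, hi⟩ := card_eq_one.mp h
  refine ⟨i, ?_⟩
  have hmem : ∀ j, u j ≠ v j ↔ j = i := by
    intro j
    have := congrArg (fun s => j ∈ s) hi
    simpa using this
  funext j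
  by_cases hj : j = i
  · subst hj
    have h1 := (hmem j).mpr rfl
    rw [flip_self]
    cases hu : u j <;> cases hv : v j <;> simp_all
  · rw [flip_ne v hj]
    by_contra hcon
    exact hj ((hmem j).mp hcon)

/-- A fall colouring with `P` colours gives an independent dominating set of size at most
`2 ^ k / P`. -/
theorem Fall.code {k P : ℕ} (h : Fall k P) : ∃ D : Finset (Fin k → Bool),
    (∀ v : Fin k → Bool, v ∈ D ∨ ∃ u ∈ D, hammingDist u v = 1) ∧
    (∀ u ∈ D, ∀ v ∈ D, hammingDist u v ≠ 1) ∧ D.card * P ≤ 2 ^ k := by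
  classical
  obtain ⟨c, hc⟩ := h
  have hP : 0 < P := (c (fun _ => true)).pos
  have hsum : ∑ a : Fin P, (univ.filter (fun v : Fin k → Bool => c v = a)).card = 2 ^ k := by
    rw [← Finset.card_eq_sum_card_fiberwise (s := (univ : Finset (Fin k → Bool)))
      (t := (univ : Finset (Fin P))) (f := c) (fun x _ => Finset.mem_univ _), Finset.card_univ]
    simp
  have hex : ∃ a : Fin P, (univ.filter (fun v : Fin k → Bool => c v = a)).card * P ≤ 2 ^ k := by
    by_contra hcon
    push Not at hcon
    have hne : (univ : Finset (Fin P)).Nonempty := ⟨⟨0, hP⟩, mem_univ _⟩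
    have h3 : ∑ a : Fin P, 2 ^ k <
        ∑ a : Fin P, (univ.filter (fun v : Fin k → Bool => c v = a)).card * P :=
      Finset.sum_lt_sum_of_nonempty hne fun a _ => hcon a
    rw [← Finset.sum_mul, hsum, Finset.sum_const, Finset.card_univ, Fintype.card_fin,
      smul_eq_mul, mul_comm] at h3
    exact lt_irrefl _ h3
  obtain ⟨a, ha⟩ := hex
  refine ⟨univ.filter (fun v => c v = a), ?_, ?_, ha⟩
  · intro v
    by_cases hv : c v = a
    · left; simpa using hv
    · right
      obtain ⟨i, hi⟩ := hc.1 v a (Ne.symm hv)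
      exact ⟨TH493.Boltz.flip v i, by simpa using hi, hammingDist_flip v i⟩
  · intro u hu v hv huv
    obtain ⟨i, rfl⟩ := exists_flip_of_hammingDist huv
    simp only [mem_filter, mem_univ, true_and] at hu hv
    exact hc.2 v i (hu.trans hv.symm)

/-- The sphere covering bound. -/
theorem sphere_bound {k : ℕ} {E : Finset (Fin k → Bool)}
    (hE : ∀ v : Fin k → Bool, v ∈ E ∨ ∃ u ∈ E, hammingDist u v = 1) :
    2 ^ k ≤ E.card * (k + 1) := by
  classical
  have hsub : (univ : Finset (Fin k → Bool)) ⊆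
      E.biUnion fun u => insert u (univ.image fun i => TH493.Boltz.flip u i) := by
    intro v _
    rw [mem_biUnion]
    rcases hE v with h | ⟨u, hu, huv⟩
    · exact ⟨v, h, mem_insert_self _ _⟩
    · obtain ⟨i, rfl⟩ := exists_flip_of_hammingDist huv
      refine ⟨_, hu, mem_insert_of_mem (mem_image.mpr ⟨i, mem_univ _, ?_⟩)⟩
      exact flip_flip v i
  have h1 := card_le_card hsub
  have h2 : (E.biUnion fun u => insert u (univ.image fun i => TH493.Boltz.flip u i)).card ≤
      E.card * (k + 1) := by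
    apply card_biUnion_le_card_mul
    intro u _
    refine (card_insert_le _ _).trans ?_
    have : (univ.image fun i => TH493.Boltz.flip u i).card ≤ k :=
      card_image_le.trans (by simp)
    omega
  have h3 : (univ : Finset (Fin k → Bool)).card = 2 ^ k := by simp
  rw [← h3]
  exact h1.trans h2

/-- For every `ε`, in every large dimension there is an independent dominating set of size at
most `(1 + ε)` times that of any dominating set. -/
theorem indep_near_optimal {ε : ℝ} (hε : 0 < ε) : ∃ k0 : ℕ, ∀ k : ℕ, k0 ≤ k →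
    ∃ D : Finset (Fin k → Bool),
      (∀ v : Fin k → Bool, v ∈ D ∨ ∃ u ∈ D, hammingDist u v = 1) ∧
      (∀ u ∈ D, ∀ v ∈ D, hammingDist u v ≠ 1) ∧
      (D.card : ℝ) * (k + 1) ≤ (1 + ε) * 2 ^ k := by
  -- choose a small parameter
  set δ : ℝ := min (ε / (1 + ε)) (1 / 2) with hδ
  have hε1 : 0 < 1 + ε := by linarith
  have hδ0 : 0 < δ := lt_min (div_pos hε hε1) (by norm_num)
  have hδ1 : δ < 1 := lt_of_le_of_lt (min_le_right _ _) (by norm_num)
  have hδ2 : 1 ≤ (1 + ε) * (1 - δ) := by
    have h1 : δ ≤ ε / (1 + ε) := min_le_left _ _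
    have h2 : (1 + ε) * δ ≤ ε := by
      calc (1 + ε) * δ ≤ (1 + ε) * (ε / (1 + ε)) := mul_le_mul_of_nonneg_left h1 hε1.le
        _ = ε := by field_simp
    linarith
  obtain ⟨T0, hT0⟩ := exists_dense_fall hδ0 hδ1
  refine ⟨T0 + 3, fun k hk => ?_⟩
  obtain ⟨N, P, hNP, hN, hP⟩ := hT0 (k + 1) (by omega)
  have hP2 : 2 ≤ P := by
    have h1 : (1 / 2 : ℝ) ≤ 1 - δ := by
      have : δ ≤ 1 / 2 := min_le_right _ _
      linarith
    have h2 : (4 : ℝ) ≤ ((k + 1 : ℕ) : ℝ) := by
      have : 4 ≤ k + 1 := by omega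
      exact_mod_cast this
    have h3 : (2 : ℝ) ≤ P := by nlinarith
    exact_mod_cast h3
  obtain ⟨D, hD1, hD2, hD3⟩ := (hNP.mono hP2 (show N ≤ k by omega)).code
  refine ⟨D, hD1, hD2, ?_⟩
  have hD3' : (D.card : ℝ) * P ≤ 2 ^ k := by exact_mod_cast hD3
  have hkr : ((k + 1 : ℕ) : ℝ) = (k : ℝ) + 1 := by push_cast; ring
  rw [hkr] at hP
  have hD0 : (0 : ℝ) ≤ D.card := by positivity
  have hk0 : (0 : ℝ) ≤ (k : ℝ) + 1 := by positivity
  calc (D.card : ℝ) * (k + 1) ≤ ((1 + ε) * (1 - δ)) * ((D.card : ℝ) * (k + 1)) := by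
        nlinarith [mul_nonneg hD0 hk0]
    _ = (1 + ε) * (D.card * ((1 - δ) * (k + 1))) := by ring
    _ ≤ (1 + ε) * (D.card * P) := by
        apply mul_le_mul_of_nonneg_left _ hε1.le
        exact mul_le_mul_of_nonneg_left hP hD0
    _ ≤ (1 + ε) * 2 ^ k := mul_le_mul_of_nonneg_left hD3' hε1.le

end Pool.Agent.Helper660_fall
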