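import Pool.Agent.Helper660_fall.Outer

/-!
Fall colourings of the cube of density tending to one in all dimensions, and independent
dominating sets.
-/

namespace Pool.Agent.Helper660_fall

open Finset Filter Topology
open Pool.Agent.TH493.Boltz hiding flip

theorem three_pow_ne {j k : ℕ} (hk : 3 ≤ k) : 3 ^ j ≠ 2 ^ k - 1 := by
  intro h
  have h8 : 3 ^ j % 8 = 1 ∨ 3 ^ j % 8 = 3 := by
    induction j with
    | zero => left; norm_num
    | succ n _ =>
      have key : ∀ n : ℕ, 3 ^ n % 8 = 1 ∨ 3 ^ n % 8 = 3 := by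
        intro n
        induction n with
        | zero => left; norm_num
        | succ n ih =>
          rw [pow_succ, Nat.mul_mod]
          rcases ih with h | h <;> rw [h] <;> norm_num
      exact key _
  obtain ⟨t, rfl⟩ : ∃ t, k = t + 3 := ⟨k - 3, by omega⟩
  have : 2 ^ (t + 3) = 8 * 2 ^ t := by rw [pow_add]; ring
  have hpos : 0 < 2 ^ t := by positivity
  omega

/-- Fall colourings with `3 ^ j` colours, `3 ^ j` just below `2 ^ k`. -/
theorem exists_three_two_fall {δ : ℝ} (hδ : 0 < δ) (hδ1 : δ ≤ 1 / 8) :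
    ∃ j k : ℕ, 1 ≤ j ∧ 3 ^ j < 2 ^ k ∧
    (1 - δ) * 2 ^ k ≤ 3 ^ j ∧ Fall (2 ^ k - 1) (3 ^ j) := by
  obtain ⟨j, k, hj, hlt, hge⟩ := exists_three_two hδ
  have hj2 : 2 ≤ j := by
    by_contra hcon
    have hj1 : j = 1 := by omega
    subst hj1
    have h2 : 2 ≤ k := by
      by_contra h
      have : k = 0 ∨ k = 1 := by omega
      rcases this with rfl | rfl <;> norm_num at hlt
    have h4 : (4 : ℝ) ≤ 2 ^ k := by
      calc (4 : ℝ) = 2 ^ 2 := by norm_num
        _ ≤ 2 ^ k := pow_le_pow_right₀ (by norm_num) h2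
    norm_num at hge
    nlinarith
  have h9 : 9 ≤ 3 ^ j := by
    calc 9 = 3 ^ 2 := by norm_num
      _ ≤ 3 ^ j := Nat.pow_le_pow_right (by norm_num) hj2
  have hk4 : 4 ≤ k := by
    by_contra h
    have : 2 ^ k ≤ 2 ^ 3 := Nat.pow_le_pow_right (by norm_num) (by omega)
    omega
  refine ⟨j, k, hj, hlt, hge, fall_all hk4 _ (by omega) ?_⟩
  have := three_pow_ne (j := j) (k := k) (by omega)
  omega

/-- **Fall colourings of density tending to one in all dimensions.** -/
theorem exists_dense_fall {ε : ℝ} (hε : 0 < ε) (hε1 : ε < 1) : ∃ T0 : ℕ, ∀ T : ℕ, T0 ≤ T →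
    ∃ N P : ℕ, Fall N P ∧ N + 1 ≤ T ∧ (1 - ε) * T ≤ P := by
  obtain ⟨j, k, hj, hlt, hge, hfall⟩ :=
    exists_three_two_fall (show 0 < ε / 8 by linarith) (by linarith)
  replace hge : (1 - ε / 3) * (2 : ℝ) ^ k ≤ 3 ^ j := by
    have : (0 : ℝ) < 2 ^ k := by positivity
    nlinarith
  set q : ℕ := 3 ^ j with hq
  set B : ℕ := 2 ^ k with hB
  have hq3 : 3 ≤ q := by
    calc 3 = 3 ^ 1 := by norm_num
      _ ≤ 3 ^ j := Nat.pow_le_pow_right (by norm_num) hj
  have hqB : q ≤ B := hlt.le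
  have hB3 : 3 < B := by omega
  have hcol : ∀ m, Fall (outerLen q (B - 1) m) (q ^ m) := by
    intro m
    have : Fact (Nat.Prime 3) := ⟨Nat.prime_three⟩
    have : Fintype (GaloisField 3 j) := Fintype.ofFinite _
    have hcardK : Fintype.card (GaloisField 3 j) = q := by
      rw [← Nat.card_eq_fintype_card]
      exact GaloisField.card 3 j (by omega)
    exact fall_outer hfall (GaloisField 3 j) hcardK m
  -- a number of steps after which the ratio has dropped below one half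
  have hM : ∃ M : ℕ, 2 * (outerLen q (B - 1) M + 1) ≤ B ^ M := by
    have hr : (q : ℝ) / B < 1 := by
      rw [div_lt_one (by positivity)]
      exact_mod_cast hlt
    have hr0 : (0 : ℝ) ≤ (q : ℝ) / B := by positivity
    have hlim := (tendsto_pow_atTop_nhds_zero_of_lt_one hr0 hr)
    have hcpos : (0 : ℝ) < 1 / (2 * B) := by positivity
    obtain ⟨M, hM⟩ := ((tendsto_order.1 hlim).2 _ hcpos).exists
    refine ⟨M, ?_⟩
    have h1 := outer_identity (q := q) (B := B) (by omega) hqB M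
    -- `2 A ≤ 2 (q-1) A ≤ 2 (B-1) q^M ≤ B^M`
    have h2 : (2 * B : ℝ) * q ^ M ≤ B ^ M := by
      have hBpos : (0 : ℝ) < (B : ℝ) ^ M := by positivity
      rw [div_pow, div_lt_div_iff₀ hBpos (by positivity), one_mul] at hM
      linarith [hM]
    have h3 : 2 * B * q ^ M ≤ B ^ M := by exact_mod_cast h2
    have h4 : outerLen q (B - 1) M + 1 ≤ (q - 1) * (outerLen q (B - 1) M + 1) := by
      have : 1 ≤ q - 1 := by omega
      exact Nat.le_mul_of_pos_left _ this
    have h5 : (B - 1) * q ^ M ≤ B * q ^ M := Nat.mul_le_mul_right _ (by omega)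
    have h6 : 2 * B * q ^ M = 2 * (B * q ^ M) := by ring
    omega
  obtain ⟨M, hM⟩ := hM
  refine ⟨2 ^ (k * M) + 1, fun T hT => ?_⟩
  have hT0 : T ≠ 0 := by
    rintro rfl
    exact Nat.not_succ_le_zero _ hT
  set L : ℕ := Nat.log 2 T + 1 with hL
  have hL1 : T < 2 ^ L := Nat.lt_pow_succ_log_self (by norm_num) T
  have hL2 : 2 ^ L ≤ 2 * T := by
    rw [hL, pow_succ]
    have := Nat.pow_log_le_self 2 hT0
    omega
  have hLk : k * M ≤ L := by
    have : k * M ≤ Nat.log 2 T := by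
      apply Nat.le_log_of_pow_le (by norm_num)
      exact le_trans (Nat.le_succ _) hT
    omega
  have hex : ∃ m, (outerLen q (B - 1) m + 1) * 2 ^ L ≤ T * B ^ m := by
    refine ⟨M, ?_⟩
    calc (outerLen q (B - 1) M + 1) * 2 ^ L ≤ (outerLen q (B - 1) M + 1) * (2 * T) :=
          Nat.mul_le_mul_left _ hL2
      _ = (2 * (outerLen q (B - 1) M + 1)) * T := by ring
      _ ≤ B ^ M * T := Nat.mul_le_mul_right _ hM
      _ = T * B ^ M := by ring
  classical
  set m := Nat.find hex with hm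
  have hm1 : (outerLen q (B - 1) m + 1) * 2 ^ L ≤ T * B ^ m := Nat.find_spec hex
  have hmM : m ≤ M := by
    apply Nat.find_min'
    calc (outerLen q (B - 1) M + 1) * 2 ^ L ≤ (outerLen q (B - 1) M + 1) * (2 * T) :=
          Nat.mul_le_mul_left _ hL2
      _ = (2 * (outerLen q (B - 1) M + 1)) * T := by ring
      _ ≤ B ^ M * T := Nat.mul_le_mul_right _ hM
      _ = T * B ^ M := by ring
  have hm0 : m ≠ 0 := by
    intro h0
    rw [h0] at hm1
    simp only [outerLen, pow_zero, mul_one, zero_add, one_mul] at hm1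
    omega
  obtain ⟨m', hm'⟩ : ∃ m', m = m' + 1 := ⟨m - 1, by omega⟩
  have hm2 : T * B ^ m' < (outerLen q (B - 1) m' + 1) * 2 ^ L := by
    have := Nat.find_min hex (m := m') (by rw [← hm]; omega)
    omega
  set A := outerLen q (B - 1) m + 1 with hA
  have hAge : q * (outerLen q (B - 1) m' + 1) ≤ A := by
    rw [hA, hm']
    exact outer_step_ge (by omega) hqB m'
  -- the remaining power of two
  have hkm : k * m ≤ L := le_trans (Nat.mul_le_mul_left _ hmM) hLk
  set l := L - k * m with hl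
  have hLl : 2 ^ L = 2 ^ l * B ^ m := by
    rw [hB, ← pow_mul, ← pow_add]; congr 1; omega
  have hBm : 0 < B ^ m := by positivity
  have hBm' : 0 < B ^ m' := by positivity
  have h1 : 2 ^ l * A ≤ T := by
    rw [hLl] at hm1
    have : (2 ^ l * A) * B ^ m ≤ T * B ^ m := by
      calc (2 ^ l * A) * B ^ m = A * (2 ^ l * B ^ m) := by ring
        _ ≤ T * B ^ m := hm1
    exact Nat.le_of_mul_le_mul_right this hBm
  have h2 : q * T ≤ B * (2 ^ l * A) := by
    have e1 : q * T * B ^ m' ≤ B * (2 ^ l * A) * B ^ m' := by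
      calc q * T * B ^ m' = q * (T * B ^ m') := by ring
        _ ≤ q * ((outerLen q (B - 1) m' + 1) * 2 ^ L) := Nat.mul_le_mul_left _ hm2.le
        _ = (q * (outerLen q (B - 1) m' + 1)) * 2 ^ L := by ring
        _ ≤ A * 2 ^ L := Nat.mul_le_mul_right _ hAge
        _ = B * (2 ^ l * A) * B ^ m' := by rw [hLl, hm', pow_succ]; ring
    exact Nat.le_of_mul_le_mul_right e1 hBm'
  have h3 := outer_identity (q := q) (B := B) (by omega) hqB m
  rw [← hA] at h3
  have h4 : (q - 1) * A ≤ (B - 1) * q ^ m := by omega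
  refine ⟨2 ^ l * A - 1, 2 ^ l * q ^ m, ?_, ?_, ?_⟩
  · have := (hcol m).double_iter l
    rwa [← hA] at this
  · have : 1 ≤ 2 ^ l * A := by
      have : 0 < 2 ^ l * A := by positivity
      omega
    omega
  · -- real estimates
    have hBr : (3 : ℝ) < B := by exact_mod_cast hB3
    have hge' : (1 - ε / 3) * (B : ℝ) ≤ q := by
      rw [hB, hq]; push_cast; exact hge
    have h4r : ((q : ℝ) - 1) * A ≤ ((B : ℝ) - 1) * q ^ m := by
      have e1 : ((q - 1 : ℕ) : ℝ) = (q : ℝ) - 1 := by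
        rw [Nat.cast_sub (by omega)]; norm_num
      have e2 : ((B - 1 : ℕ) : ℝ) = (B : ℝ) - 1 := by
        rw [Nat.cast_sub (by omega)]; norm_num
      rw [← e1, ← e2]
      exact_mod_cast h4
    have h2r : (q : ℝ) * T ≤ B * (2 ^ l * A) := by exact_mod_cast h2
    have e5 : (1 - 2 * (ε / 3)) * ((B : ℝ) - 1) ≤ (q : ℝ) - 1 := by nlinarith
    have hA0 : (0 : ℝ) < A := by
      have : 0 < A := by rw [hA]; omega
      exact_mod_cast this
    have hTr : (0 : ℝ) ≤ T := by positivity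
    -- `(1-2δ) A ≤ q^m`
    have e6 : (1 - 2 * (ε / 3)) * (A : ℝ) ≤ (q : ℝ) ^ m := by
      have hB1 : (0 : ℝ) < (B : ℝ) - 1 := by linarith
      have : ((B : ℝ) - 1) * ((1 - 2 * (ε / 3)) * (A : ℝ)) ≤ ((B : ℝ) - 1) * (q : ℝ) ^ m := by
        calc ((B : ℝ) - 1) * ((1 - 2 * (ε / 3)) * (A : ℝ))
            = ((1 - 2 * (ε / 3)) * ((B : ℝ) - 1)) * A := by ring
          _ ≤ ((q : ℝ) - 1) * A := mul_le_mul_of_nonneg_right e5 hA0.le
          _ ≤ _ := h4r
      exact le_of_mul_le_mul_left this hB1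
    -- `(1-δ) T ≤ 2^l A`
    have e7 : (1 - ε / 3) * (T : ℝ) ≤ 2 ^ l * A := by
      have hB0 : (0 : ℝ) < B := by linarith
      have : (B : ℝ) * ((1 - ε / 3) * (T : ℝ)) ≤ B * (2 ^ l * A) := by
        calc (B : ℝ) * ((1 - ε / 3) * (T : ℝ)) = ((1 - ε / 3) * B) * T := by ring
          _ ≤ q * T := mul_le_mul_of_nonneg_right hge' hTr
          _ ≤ _ := h2r
      exact le_of_mul_le_mul_left this hB0
    push_cast
    have e8 : (0 : ℝ) ≤ 1 - 2 * (ε / 3) := by linarith
    have e9 : (0 : ℝ) < 2 ^ l := by positivity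
    calc (1 - ε) * (T : ℝ) ≤ (1 - 2 * (ε / 3)) * ((1 - ε / 3) * (T : ℝ)) := by
          nlinarith [mul_nonneg hε.le hTr, mul_nonneg (mul_nonneg hε.le hε.le) hTr]
      _ ≤ (1 - 2 * (ε / 3)) * (2 ^ l * A) := mul_le_mul_of_nonneg_left e7 e8
      _ = 2 ^ l * ((1 - 2 * (ε / 3)) * A) := by ring
      _ ≤ 2 ^ l * (q : ℝ) ^ m := mul_le_mul_of_nonneg_left e6 e9.le

end Pool.Agent.Helper660_fall
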