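import Pool.Agent.Helper660_fall.Outer

/-!
Dimensions in which fall colourings with every number of colours in a long range exist.
-/

namespace Pool.Agent.Helper660_fall

open Finset
open Pool.Agent.TH493.Boltz hiding flip

/-- All numbers of colours from 4 to `R` occur in dimension `N`. -/
def Full (N R : ℕ) : Prop := ∀ P, 4 ≤ P → P ≤ R → Fall N P

theorem Full.mono {N R N' R' : ℕ} (h : Full N R) (hN : N ≤ N') (hR : R' ≤ R) : Full N' R' :=
  fun P h4 hP => (h P h4 (hP.trans hR)).mono (by omega) hN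

theorem Full.sum {N R : ℕ} (h : Full N R) (hR : 7 ≤ R) : Full (2 * N + 1) (2 * R) := by
  intro P h4 hP
  rcases le_or_gt P 7 with h7 | h7
  · exact (h P h4 (by omega)).mono (by omega) (by omega)
  · have : P = P / 2 + (P - P / 2) := by omega
    rw [this]
    exact (h _ (by omega) (by omega)).sum (h _ (by omega) (by omega))

/-- The number of colours is at most the dimension plus one. -/
theorem Fall.le {N P : ℕ} (h : Fall N P) : P ≤ N + 1 := by
  classical
  obtain ⟨c, hc⟩ := h
  let f : Option (Fin N) → Fin P := fun o =>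
    match o with
    | none => c (fun _ => true)
    | some i => c (TH493.Boltz.flip (fun _ => true) i)
  have hf : Function.Surjective f := by
    intro a
    by_cases ha : a = c (fun _ => true)
    · exact ⟨none, ha.symm⟩
    · obtain ⟨i, hi⟩ := hc.1 _ _ ha
      exact ⟨some i, hi⟩
  have := Fintype.card_le_of_surjective f hf
  simpa using this

theorem full_two_pow {b : ℕ} (hb : 4 ≤ b) : Full (2 ^ b - 1) (2 ^ b - 2) := fall_all hb

/-- `2 P + [.., 2 R]` after two doublings. -/
theorem full_two_steps {n P R : ℕ} (hP : Fall n P) (hR : Full n R) (h7 : 7 ≤ R) (hRP : R ≤ P)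
    (h3 : P + 7 ≤ 3 * R) : Full (4 * n + 3) (2 * P + 2 * R) := by
  have h2 : Full (2 * n + 1) (2 * R) := hR.sum h7
  have hA : ∀ Q, P + 4 ≤ Q → Q ≤ P + R → Fall (2 * n + 1) Q := by
    intro Q h1 h2
    have : Q = P + (Q - P) := by omega
    rw [this]
    exact hP.sum (hR _ (by omega) (by omega))
  have e : 4 * n + 3 = 2 * (2 * n + 1) + 1 := by ring
  rw [e]
  intro Q h4 hQ
  rcases le_or_gt Q (4 * R) with hq | hq
  · exact h2.sum (by omega) Q h4 (by omega)
  rcases le_or_gt Q (P + 3 * R) with hq2 | hq2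
  · -- `Q = (P + x) + y`, `x ∈ [4, R]`, `y ∈ [4, 2 R]`
    rcases le_or_gt Q (P + 4 + 2 * R) with hq3 | hq3
    · have : Q = (P + 4) + (Q - (P + 4)) := by omega
      rw [this]
      exact (hA _ le_rfl (by omega)).sum (h2 _ (by omega) (by omega))
    · have : Q = (Q - 2 * R) + 2 * R := by omega
      rw [this]
      exact (hA _ (by omega) (by omega)).sum (h2 _ (by omega) le_rfl)
  · have : Q = Q / 2 + (Q - Q / 2) := by omega
    rw [this]
    exact (hA _ (by omega) (by omega)).sum (hA _ (by omega) (by omega))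

/-- Completion: a fall colouring with `P` colours gives, after `t` doublings, all numbers of
colours up to almost `2 ^ t P`. -/
theorem full_complete {n P R : ℕ} (hP : Fall n P) (hR : Full n R) (h7 : 7 ≤ R) (hRP : R ≤ P)
    (h2 : P + 3 ≤ 2 * R) (t : ℕ) : Full (2 ^ t * (n + 1) - 1) (2 ^ t * P - (P - R)) := by
  induction t with
  | zero =>
    have : P - (P - R) = R := by omega
    simpa [this] using hR
  | succ t ih =>
    have hPt := hP.double_iter t
    have h1 : 1 ≤ 2 ^ t * (n + 1) := Nat.one_le_iff_ne_zero.mpr (by positivity)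
    have e1 : 2 ^ (t + 1) * (n + 1) - 1 = 2 * (2 ^ t * (n + 1) - 1) + 1 := by
      have : 2 ^ (t + 1) * (n + 1) = 2 * (2 ^ t * (n + 1)) := by rw [pow_succ]; ring
      omega
    have e2 : 2 ^ (t + 1) * P = 2 * (2 ^ t * P) := by rw [pow_succ]; ring
    have h3 : P ≤ 2 ^ t * P := Nat.le_mul_of_pos_left _ (by positivity)
    rw [e1, e2]
    set N := 2 ^ t * (n + 1) - 1
    set Q := 2 ^ t * P
    intro S h4 hS
    rcases le_or_gt S (2 * (Q - (P - R))) with hs | hs
    · exact ih.sum (by omega) S h4 hs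
    · have : S = Q + (S - Q) := by omega
      rw [this]
      exact hPt.sum (ih _ (by omega) (by omega))

/-- Everything together: if dimension `n` has a fall colouring with `P ≥ 64` colours, then after
`t ≥ 2` doublings every number of colours from `4` to `(2 ^ t - 2) P` occurs. -/
theorem full_of_fall {n P : ℕ} (hP : Fall n P) (hP64 : 64 ≤ P) {t : ℕ} (ht : 2 ≤ t) :
    Full (2 ^ t * (n + 1) - 1) ((2 ^ t - 2) * P) := by
  have hPn := hP.le
  set b := Nat.log 2 (n + 1) with hb
  have hb1 : 2 ^ b ≤ n + 1 := Nat.pow_log_le_self 2 (by omega)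
  have hb2 : n + 1 < 2 * 2 ^ b := by
    have : n + 1 < 2 ^ (b + 1) := Nat.lt_pow_succ_log_self (b := 2) (by norm_num) (n + 1)
    rw [pow_succ] at this
    omega
  have hb4 : 4 ≤ b := by
    by_contra hcon
    have : 2 ^ b ≤ 2 ^ 3 := Nat.pow_le_pow_right (by norm_num) (by omega)
    omega
  have hfull : Full n (2 ^ b - 2) := (full_two_pow hb4).mono (by omega) le_rfl
  set R0 := 2 ^ b - 2 with hR0
  have hR0' : 2 ^ b = R0 + 2 := by omega
  -- if `R0 > P` shrink it
  set R := min R0 P with hR
  have hR1 : R ≤ P := min_le_right _ _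
  have hR2 : P + 7 ≤ 3 * R := by
    rcases min_cases R0 P with ⟨h, _⟩ | ⟨h, _⟩ <;> omega
  have hR7 : 7 ≤ R := by omega
  have h2 := full_two_steps hP (hfull.mono le_rfl (min_le_left _ _)) hR7 hR1 hR2
  have hP2 := hP.double.double
  have e : 2 * (2 * n + 1) + 1 = 4 * n + 3 := by ring
  rw [e] at hP2
  obtain ⟨s, rfl⟩ : ∃ s, t = s + 2 := ⟨t - 2, by omega⟩
  have h3 := full_complete hP2 h2 (by omega) (by omega) (by omega) s
  have hR3 : P ≤ 2 * R + 3 := by
    rcases min_cases R0 P with ⟨h, _⟩ | ⟨h, _⟩ <;> omega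
  refine h3.mono (le_of_eq ?_) ?_
  · have : 2 ^ s * (4 * n + 3 + 1) = 2 ^ (s + 2) * (n + 1) := by rw [pow_add]; ring
    rw [this]
  · have h4 : (2 ^ (s + 2) - 2) * P = 2 ^ (s + 2) * P - 2 * P := by
      rw [Nat.sub_mul]
    have h5 : 2 ^ s * (2 * (2 * P)) = 2 ^ (s + 2) * P := by rw [pow_add]; ring
    rw [h4, h5]
    omega

end Pool.Agent.Helper660_fall
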