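import Pool.Agent.H295R3.Hoheisel

/-!
A prime whose `J`-th power lies in a short window (from the theorem on primes in short intervals).
-/

namespace Pool.Agent.Helper660_fall

open Finset

theorem beta_pow_le {J : ℕ} {ε : ℝ} (hJ : 1 ≤ J) (h0 : 0 < ε) (h1 : ε ≤ 1 / 8) :
    (1 - 3 * ε / (2 * J)) ^ J ≤ 1 - ε := by
  have hJr : (1 : ℝ) ≤ J := by exact_mod_cast hJ
  have hx : 0 ≤ 1 - 3 * ε / (2 * J) := by
    rw [sub_nonneg, div_le_one (by positivity)]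
    linarith
  have h2 : (1 : ℝ) - 3 * ε / (2 * J) ≤ Real.exp (-(3 * ε / (2 * J))) := by
    have := Real.add_one_le_exp (-(3 * ε / (2 * J)))
    linarith
  have h3 : (1 - 3 * ε / (2 * J)) ^ J ≤ Real.exp (-(3 * ε / 2)) := by
    calc (1 - 3 * ε / (2 * J)) ^ J ≤ (Real.exp (-(3 * ε / (2 * J)))) ^ J :=
          pow_le_pow_left₀ hx h2 J
      _ = Real.exp (-(3 * ε / 2)) := by
          rw [← Real.exp_nat_mul]
          congr 1
          field_simp
  refine h3.trans ?_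
  rw [Real.exp_neg]
  have h4 : 1 + 3 * ε / 2 ≤ Real.exp (3 * ε / 2) := by
    have := Real.add_one_le_exp (3 * ε / 2)
    linarith
  have h5 : (Real.exp (3 * ε / 2))⁻¹ ≤ (1 + 3 * ε / 2)⁻¹ :=
    inv_anti₀ (by linarith) h4
  refine h5.trans ?_
  rw [inv_le_comm₀ (by linarith) (by linarith), inv_eq_one_div, div_le_iff₀ (by linarith)]
  nlinarith

theorem alpha_pow_ge {J : ℕ} {ε : ℝ} (hJ : 1 ≤ J) (h0 : 0 < ε) (h1 : ε ≤ 1 / 8) :
    1 - 2 * ε ≤ (1 - 2 * ε / J) ^ J := by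
  have hJr : (1 : ℝ) ≤ J := by exact_mod_cast hJ
  have h2 : (-2 : ℝ) ≤ -(2 * ε / J) := by
    have : 2 * ε / J ≤ 2 * ε := div_le_self (by linarith) hJr
    linarith
  have h3 := one_add_mul_le_pow h2 J
  have h4 : 1 + (J : ℝ) * -(2 * ε / J) = 1 - 2 * ε := by field_simp; ring
  rw [h4] at h3
  simpa [sub_eq_add_neg] using h3

theorem prime_window : ∃ A : ℕ, 100 ≤ A ∧ ∀ (J : ℕ) (ε z : ℝ), 1 ≤ J → 0 < ε → ε ≤ 1 / 8 →
    ((A : ℝ) * J / ε) ^ A ≤ z → ∃ r : ℕ, r.Prime ∧ (1 - 2 * ε) * z ^ J ≤ (r : ℝ) ^ J ∧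
      (r : ℝ) ^ J ≤ (1 - ε) * z ^ J := by
  classical
  obtain ⟨δ, η, hδ0, hδ1, hη, X₀, hX₀, H⟩ := Pool.Agent.H295R3.D.hoheisel
  set A : ℕ := 100 + 2 * X₀ + ⌈1 / δ⌉₊ with hA
  have hA1 : (100 : ℝ) ≤ A := by
    have : 100 ≤ A := by omega
    exact_mod_cast this
  have hA2 : (2 : ℝ) * X₀ ≤ A := by
    have : 2 * X₀ ≤ A := by omega
    exact_mod_cast this
  have hA3 : 1 ≤ A * δ := by
    have h1 : 1 / δ ≤ A := by
      have : ⌈1 / δ⌉₊ ≤ A := by omega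
      exact (Nat.le_ceil _).trans (by exact_mod_cast this)
    rw [div_le_iff₀ hδ0] at h1
    exact h1
  refine ⟨A, by omega, fun J ε z hJ h0 h1 hz => ?_⟩
  have hJr : (1 : ℝ) ≤ J := by exact_mod_cast hJ
  set q : ℝ := (A : ℝ) * J / ε with hq
  have hq1 : (A : ℝ) ≤ q := by
    rw [hq, le_div_iff₀ h0]
    nlinarith
  have hq8 : 8 * (J / ε) ≤ q := by
    rw [hq, mul_div_assoc]
    have : 0 ≤ (J : ℝ) / ε := by positivity
    nlinarith
  have hq1' : 1 ≤ q := by linarith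
  have hzq : q ≤ z := by
    refine le_trans ?_ hz
    calc q = q ^ 1 := (pow_one q).symm
      _ ≤ q ^ A := pow_le_pow_right₀ hq1' (by omega)
  have hz0 : 0 < z := by linarith
  have hzδ : q ≤ z ^ δ := by
    calc q = q ^ (1 : ℝ) := (Real.rpow_one q).symm
      _ ≤ q ^ ((A : ℝ) * δ) := Real.rpow_le_rpow_of_exponent_le hq1' hA3
      _ = (q ^ A) ^ δ := by rw [Real.rpow_mul (by linarith), Real.rpow_natCast]
      _ ≤ z ^ δ := Real.rpow_le_rpow (by positivity) hz hδ0.le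
  have hεJ : 0 < ε / J := by positivity
  have hJε : ε / J * (J / ε) = 1 := by field_simp
  -- basic size estimates
  have hez : 8 ≤ ε / J * z := by
    have : 8 * (J / ε) ≤ z := hq8.trans hzq
    calc (8 : ℝ) = ε / J * (8 * (J / ε)) := by linear_combination (-8 : ℝ) * hJε
      _ ≤ ε / J * z := mul_le_mul_of_nonneg_left this hεJ.le
  have hεJ8 : ε / J ≤ 1 / 8 := (div_le_self h0.le hJr).trans h1
  set Y : ℕ := ⌊ε / J * z / 4⌋₊ with hY
  set M : ℕ := ⌊(1 - 3 * ε / (2 * J)) * z⌋₊ with hM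
  have hβ : 3 * ε / (2 * (J : ℝ)) = 3 / 2 * (ε / J) := by field_simp
  have hα : 2 * ε / (J : ℝ) = 2 * (ε / J) := by ring
  have hY1 : (Y : ℝ) ≤ ε / J * z / 4 := Nat.floor_le (by positivity)
  have hY2 : ε / J * z / 4 < Y + 1 := Nat.lt_floor_add_one _
  have hM1 : (M : ℝ) ≤ (1 - 3 / 2 * (ε / J)) * z := by
    rw [← hβ]
    refine Nat.floor_le ?_
    rw [hβ]
    exact mul_nonneg (by linarith) hz0.le
  have hM2 : (1 - 3 / 2 * (ε / J)) * z < M + 1 := by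
    rw [← hβ]
    exact Nat.lt_floor_add_one _
  have hze : ε / J * z ≤ z / 8 := by nlinarith
  have hYM : Y ≤ M := by
    have : (Y : ℝ) ≤ M := by nlinarith
    exact_mod_cast this
  obtain ⟨X, hX⟩ : ∃ X, M = X + Y := ⟨M - Y, by omega⟩
  have hXr : (M : ℝ) = X + Y := by exact_mod_cast hX
  have hX1 : (1 - 2 * (ε / J)) * z ≤ X := by nlinarith
  have hX2 : z / 2 ≤ X := by nlinarith
  have hXX : X₀ ≤ X := by
    have : (X₀ : ℝ) ≤ X := by
      have : (A : ℝ) ≤ z := hq1.trans hzq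
      linarith
    exact_mod_cast this
  have hXz : (X : ℝ) ≤ z := by nlinarith
  have hY8 : ε / J * z / 8 ≤ Y := by linarith
  have hpow : (X : ℝ) ^ (1 - δ) ≤ Y := by
    have e1 : z ^ (1 - δ) * z ^ δ = z := by
      rw [← Real.rpow_add hz0]; simp
    have e2 : 0 ≤ z ^ (1 - δ) := by positivity
    have e3 : 8 * (J / ε) ≤ z ^ δ := hq8.trans hzδ
    have e4 : z ^ (1 - δ) * (8 * (J / ε)) ≤ z := by
      calc z ^ (1 - δ) * (8 * (J / ε)) ≤ z ^ (1 - δ) * z ^ δ := mul_le_mul_of_nonneg_left e3 e2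
        _ = z := e1
    have e5 : z ^ (1 - δ) ≤ ε / J * z / 8 := by
      have : z ^ (1 - δ) = ε / J * (z ^ (1 - δ) * (8 * (J / ε))) / 8 := by
        linear_combination (-(z ^ (1 - δ))) * hJε
      rw [this]
      have := mul_le_mul_of_nonneg_left e4 hεJ.le
      linarith
    calc (X : ℝ) ^ (1 - δ) ≤ z ^ (1 - δ) := Real.rpow_le_rpow (by positivity) hXz (by linarith)
      _ ≤ _ := e5
      _ ≤ Y := hY8
  have hYX : Y ≤ X := by
    have : (Y : ℝ) ≤ X := by nlinarith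
    exact_mod_cast this
  have hcard := H X Y hXX hpow hYX
  have hXlog : 0 < Real.log X := by
    apply Real.log_pos
    have : 2 ≤ X := hX₀.trans hXX
    have : (2 : ℝ) ≤ X := by exact_mod_cast this
    linarith
  have hYpos : (0 : ℝ) < Y := by linarith
  have hpos : (0 : ℝ) < (((Ioc X (X + Y)).filter Nat.Prime).card : ℝ) :=
    lt_of_lt_of_le (by positivity) hcard
  have hpos' : 0 < ((Ioc X (X + Y)).filter Nat.Prime).card := by exact_mod_cast hpos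
  obtain ⟨r, hr⟩ := Finset.card_pos.mp hpos'
  rw [mem_filter, mem_Ioc] at hr
  obtain ⟨⟨hr1, hr2⟩, hrp⟩ := hr
  have hr1r : (X : ℝ) ≤ r := by exact_mod_cast hr1.le
  have hr2r : (r : ℝ) ≤ M := by rw [hX]; exact_mod_cast hr2
  refine ⟨r, hrp, ?_, ?_⟩
  · have h3 : (1 - 2 * ε / J) * z ≤ r := by
      rw [hα]; exact hX1.trans hr1r
    calc (1 - 2 * ε) * z ^ J ≤ (1 - 2 * ε / J) ^ J * z ^ J :=
          mul_le_mul_of_nonneg_right (alpha_pow_ge hJ h0 h1) (by positivity)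
      _ = ((1 - 2 * ε / J) * z) ^ J := (mul_pow _ _ _).symm
      _ ≤ (r : ℝ) ^ J := by
          refine pow_le_pow_left₀ ?_ h3 J
          rw [hα]
          exact mul_nonneg (by linarith) hz0.le
  · have h3 : (r : ℝ) ≤ (1 - 3 * ε / (2 * J)) * z := by
      rw [hβ]; exact hr2r.trans hM1
    calc (r : ℝ) ^ J ≤ ((1 - 3 * ε / (2 * J)) * z) ^ J := pow_le_pow_left₀ (by positivity) h3 J
      _ = (1 - 3 * ε / (2 * J)) ^ J * z ^ J := mul_pow _ _ _
      _ ≤ (1 - ε) * z ^ J :=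
          mul_le_mul_of_nonneg_right (beta_pow_le hJ h0 h1) (by positivity)

end Pool.Agent.Helper660_fall
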