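import Pool.Agent.Helper660_fall.Full

/-!
The outer construction from the partition of `F × U` (`F` a finite field, `U` an additive group
embedded in `F`) into the subgroups `{(a u, u)}`, `a ∈ F`, and `F × 0`.
-/

namespace Pool.Agent.Helper660_fall

open Finset
open Pool.Agent.TH493.Boltz hiding flip

theorem fcol_mixed {F U ι ι₁ : Type} [Field F] [Fintype F] [DecidableEq F] [AddCommGroup U]
    [Fintype ι] [DecidableEq ι] [DecidableEq ι₁] (φ : U →+ F) (hφ : Function.Injective φ)
    (h : FCol ι U) (h₁ : FCol ι₁ F) : FCol ((F × ι) ⊕ ι₁) (F × U) := by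
  classical
  obtain ⟨c, hc, hp⟩ := h
  obtain ⟨c₁, hc₁, hp₁⟩ := h₁
  let X : (((F × ι) ⊕ ι₁) → Bool) → F → (ι → Bool) := fun v s i => v (Sum.inl (s, i))
  let Y : (((F × ι) ⊕ ι₁) → Bool) → (ι₁ → Bool) := fun v i => v (Sum.inr i)
  have hinjX : ∀ s, Function.Injective (fun i : ι => (Sum.inl (s, i) : (F × ι) ⊕ ι₁)) := by
    intro s a b h; simpa using h
  have XX : ∀ v s i, X (TH493.Boltz.flip v (Sum.inl (s, i))) s = TH493.Boltz.flip (X v s) i :=
    fun v s i => flip_comp (hinjX s) v i
  have XX' : ∀ v s i s', s' ≠ s → X (TH493.Boltz.flip v (Sum.inl (s, i))) s' = X v s' :=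
    fun v s i s' h => flip_comp_ne (fun k => by simp [h]) v
  have XY : ∀ v i s, X (TH493.Boltz.flip v (Sum.inr i)) s = X v s := fun v i s =>
    flip_comp_ne (fun k => by simp) v
  have YX : ∀ v s i, Y (TH493.Boltz.flip v (Sum.inl (s, i))) = Y v := fun v s i =>
    flip_comp_ne (fun k => by simp) v
  have YY : ∀ v i, Y (TH493.Boltz.flip v (Sum.inr i)) = TH493.Boltz.flip (Y v) i := fun v i =>
    flip_comp Sum.inr_injective v i
  have hsum : ∀ {A : Type} [AddCommGroup A] (G : F → (ι → Bool) → A) (v : ((F × ι) ⊕ ι₁) → Bool)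
      (s : F) (i : ι) (d : A), G s (TH493.Boltz.flip (X v s) i) = G s (X v s) + d →
      ∑ s', G s' (X (TH493.Boltz.flip v (Sum.inl (s, i))) s') = ∑ s', G s' (X v s') + d := by
    intro A _ G v s i d hd
    rw [← Finset.add_sum_erase _ _ (Finset.mem_univ s), ← Finset.add_sum_erase (a := s) _
      (fun s' => G s' (X v s')) (Finset.mem_univ s), XX, hd]
    have : ∑ s' ∈ univ.erase s, G s' (X (TH493.Boltz.flip v (Sum.inl (s, i))) s') =
        ∑ s' ∈ univ.erase s, G s' (X v s') := by
      refine Finset.sum_congr rfl fun s' hs' => ?_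
      rw [XX' v s i s' (Finset.ne_of_mem_erase hs')]
    rw [this]
    abel
  refine ⟨fun v => (∑ s, s * φ (c (X v s)) + c₁ (Y v), ∑ s, c (X v s)), ?_, ?_⟩
  · rintro v ⟨w, u⟩ hne
    by_cases hu : u = 0
    · subst hu
      have hw : w ≠ 0 := fun h0 => hne (by rw [h0]; rfl)
      obtain ⟨i, hi⟩ := hc₁ (Y v) w hw
      refine ⟨Sum.inr i, ?_⟩
      simp only [XY, YY, hi, Prod.mk_add_mk, add_zero, Prod.mk.injEq, and_true]
      abel
    · have hφu : φ u ≠ 0 := fun h0 => hu (hφ (by rw [h0, map_zero]))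
      set s : F := w / φ u with hs
      obtain ⟨i, hi⟩ := hc (X v s) u hu
      refine ⟨Sum.inl (s, i), ?_⟩
      have hsw : s * φ u = w := by rw [hs]; field_simp
      beta_reduce
      rw [hsum (fun s x => s * φ (c x)) v s i w (by rw [hi, map_add, mul_add, hsw]),
        hsum (fun _ x => c x) v s i u hi, YX]
      simp only [Prod.mk_add_mk, Prod.mk.injEq, and_true]
      abel
  · rintro v (⟨s, i⟩ | i) he
    · have h1 : ∑ s', c (X (TH493.Boltz.flip v (Sum.inl (s, i))) s') = ∑ s', c (X v s') :=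
        congrArg Prod.snd he
      have h2 := hsum (fun _ x => c x) v s i (c (TH493.Boltz.flip (X v s) i) - c (X v s))
        (by abel)
      rw [h1] at h2
      have h3 : c (TH493.Boltz.flip (X v s) i) - c (X v s) = 0 := by
        have := h2.symm; simpa using this
      exact hp _ _ (sub_eq_zero.mp h3)
    · have h1 : ∑ s, s * φ (c (X (TH493.Boltz.flip v (Sum.inr i)) s)) +
          c₁ (Y (TH493.Boltz.flip v (Sum.inr i))) = ∑ s, s * φ (c (X v s)) + c₁ (Y v) :=
        congrArg Prod.fst he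
      simp only [XY, YY] at h1
      exact hp₁ _ _ (add_left_cancel h1)

theorem FCol.fall {ι G : Type} [Fintype ι] [DecidableEq ι] [AddCommGroup G] [Fintype G]
    (h : FCol ι G) {N P : ℕ} (hN : Fintype.card ι = N) (hP : Fintype.card G = P) : Fall N P := by
  obtain ⟨c, hc, hp⟩ := h
  refine Fall.of (c := c) ⟨fun v a ha => ?_, hp⟩ hN hP
  obtain ⟨i, hi⟩ := hc v (a - c v) (sub_ne_zero.mpr ha)
  exact ⟨i, by rw [hi]; abel⟩

/-- The mixed outer construction. -/
theorem fall_mixed {r s e N N' : ℕ} (hr : r.Prime) (hs : s ≤ e) (he : e ≠ 0)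
    (h : Fall N (r ^ s)) (h' : Fall N' (r ^ e)) : Fall (r ^ e * N + N') (r ^ (e + s)) := by
  classical
  have : Fact r.Prime := ⟨hr⟩
  have : Fintype (GaloisField r e) := Fintype.ofFinite _
  have hcardF : Fintype.card (GaloisField r e) = r ^ e := by
    rw [← Nat.card_eq_fintype_card]
    exact GaloisField.card r e he
  have hcardU : Fintype.card (Fin s → ZMod r) = r ^ s := by
    rw [Fintype.card_fun, ZMod.card, Fintype.card_fin]
  have hfin : Module.finrank (ZMod r) (Fin s → ZMod r) ≤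
      Module.finrank (ZMod r) (GaloisField r e) := by
    rw [GaloisField.finrank r he, Module.finrank_fin_fun]
    exact hs
  obtain ⟨f, hf⟩ := finrank_le_iff_exists_linearMap.mp hfin
  have h1 : FCol (Fin N) (Fin s → ZMod r) := h.fcol hcardU
  have h2 : FCol (Fin N') (GaloisField r e) := h'.fcol hcardF
  have h3 := fcol_mixed f.toAddMonoidHom hf h1 h2
  refine h3.fall ?_ ?_
  · rw [Fintype.card_sum, Fintype.card_prod, hcardF, Fintype.card_fin, Fintype.card_fin]
  · rw [Fintype.card_prod, hcardF, hcardU, pow_add]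

end Pool.Agent.Helper660_fall
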