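import Pool.Agent.Helper660_fall.Mixed
import Pool.Agent.Helper660_fall.Gap

/-!
The iteration: from dimension about `y` to dimension about `2 ^ t * y ^ (2 + 1 / J)`.
-/

namespace Pool.Agent.Helper660_fall

open Finset

/-- Up to dimension `y` (minus one) all numbers of colours from `4` to `(1 - ε) y` occur. -/
def Good (ε y : ℝ) : Prop := ∃ N R : ℕ, Full N R ∧ (N : ℝ) + 1 ≤ y ∧ (1 - ε) * y ≤ R

/-- The property of the constant `A` given by `prime_window`. -/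
def Window (A : ℕ) : Prop := ∀ (J : ℕ) (ε z : ℝ), 1 ≤ J → 0 < ε → ε ≤ 1 / 8 →
    ((A : ℝ) * J / ε) ^ A ≤ z → ∃ r : ℕ, r.Prime ∧ (1 - 2 * ε) * z ^ J ≤ (r : ℝ) ^ J ∧
      (r : ℝ) ^ J ≤ (1 - ε) * z ^ J

theorem good_two_pow {ε : ℝ} {n : ℕ} (hn : 4 ≤ n) (h : 2 ≤ ε * 2 ^ n) : Good ε (2 ^ n) := by
  have h16 : 16 ≤ 2 ^ n := by
    calc 16 = 2 ^ 4 := by norm_num
      _ ≤ 2 ^ n := Nat.pow_le_pow_right (by norm_num) hn
  refine ⟨2 ^ n - 1, 2 ^ n - 2, full_two_pow hn, ?_, ?_⟩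
  · rw [Nat.cast_sub (by omega)]; push_cast; linarith
  · rw [Nat.cast_sub (by omega)]; push_cast; linarith

theorem good_step {A : ℕ} (hA : 100 ≤ A) (hW : Window A) {J : ℕ} {ε z : ℝ} (hJ : 1 ≤ J)
    (h0 : 0 < ε) (h1 : ε ≤ 1 / 8) (hz : ((A : ℝ) * J / ε) ^ A ≤ z) (h : Good ε (z ^ J))
    {t : ℕ} (ht : 2 ≤ ε * 2 ^ t) : Good (7 * ε) (2 ^ t * z ^ (2 * J + 1)) := by
  obtain ⟨r, hrp, hr1, hr2⟩ := hW J ε z hJ h0 h1 hz
  obtain ⟨N, R, hF, hN, hR⟩ := h
  have hJr : (1 : ℝ) ≤ J := by exact_mod_cast hJ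
  have hA1 : (100 : ℝ) ≤ A := by exact_mod_cast hA
  -- size of z
  have hq : 100 / ε ≤ z := by
    have e1 : 100 / ε ≤ (A : ℝ) * J / ε := by
      apply div_le_div_of_nonneg_right _ h0.le
      nlinarith
    have e2 : 1 ≤ (A : ℝ) * J / ε := by
      refine le_trans ?_ e1
      rw [le_div_iff₀ h0]; linarith
    calc 100 / ε ≤ (A : ℝ) * J / ε := e1
      _ = ((A : ℝ) * J / ε) ^ 1 := (pow_one _).symm
      _ ≤ ((A : ℝ) * J / ε) ^ A := pow_le_pow_right₀ e2 (by omega)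
      _ ≤ z := hz
  have hεz : 100 ≤ ε * z := by
    rw [div_le_iff₀ h0] at hq; linarith
  have hz800 : 800 ≤ z := by nlinarith
  have hz0 : 0 < z := by linarith
  have hz1 : 1 ≤ z := by linarith
  have hzJ : z ≤ z ^ J := by
    calc z = z ^ 1 := (pow_one z).symm
      _ ≤ z ^ J := pow_le_pow_right₀ hz1 hJ
  have hzJ0 : 0 < z ^ J := by positivity
  -- the prime power
  have hrJR : r ^ J ≤ R := by
    have : (r : ℝ) ^ J ≤ R := hr2.trans hR
    exact_mod_cast this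
  have hrJ64 : 64 ≤ r ^ J := by
    have : (64 : ℝ) ≤ (r : ℝ) ^ J := by nlinarith
    exact_mod_cast this
  have hfall : Fall N (r ^ J) := hF _ (by omega) hrJR
  have hr0 : 2 ≤ r := hrp.two_le
  have hrJ1 : r ^ J ≤ r ^ (J + 1) := Nat.pow_le_pow_right (by omega) (by omega)
  -- the exceptional block
  set Q := r ^ (J + 1) with hQ
  set b := Nat.log 2 (Q + 1) with hb
  have hb1 : 2 ^ b ≤ Q + 1 := Nat.pow_log_le_self 2 (by omega)
  have hb2 : Q + 1 < 2 ^ (b + 1) := Nat.lt_pow_succ_log_self (b := 2) (by norm_num) (Q + 1)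
  have hb4 : 4 ≤ b + 1 := by
    by_contra hcon
    have : 2 ^ (b + 1) ≤ 2 ^ 3 := Nat.pow_le_pow_right (by norm_num) (by omega)
    omega
  have hfall' : Fall (2 ^ (b + 1) - 1) (r ^ (J + 1)) :=
    fall_all hb4 _ (by omega) (by omega)
  have hmix := fall_mixed hrp (show J ≤ J + 1 by omega) (by omega) hfall hfall'
  set n := Q * N + (2 ^ (b + 1) - 1) with hn
  have hPe : r ^ (J + 1 + J) = r ^ J * r ^ J * r := by
    rw [show J + 1 + J = J + J + 1 by ring, pow_succ, pow_add]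
  have hP64 : 64 ≤ r ^ (J + 1 + J) :=
    hrJ64.trans (Nat.pow_le_pow_right (by omega) (by omega))
  have ht2 : 2 ≤ t := by
    by_contra hcon
    have : t = 0 ∨ t = 1 := by omega
    rcases this with rfl | rfl <;> norm_num at ht <;> linarith
  have hfull := full_of_fall hmix hP64 ht2
  rw [hPe] at hfull
  refine ⟨_, _, hfull, ?_, ?_⟩
  · -- dimension
    have hn1 : n + 1 ≤ Q * (N + 2) + 2 := by
      have : 2 ^ (b + 1) ≤ 2 * (Q + 1) := by rw [pow_succ]; omega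
      have e : Q * (N + 2) = Q * N + 2 * Q := by ring
      omega
    have hpos : 1 ≤ 2 ^ t * (n + 1) := Nat.one_le_iff_ne_zero.mpr (by positivity)
    have e1 : ((2 ^ t * (n + 1) - 1 : ℕ) : ℝ) + 1 = 2 ^ t * ((n : ℝ) + 1) := by
      rw [Nat.cast_sub hpos]; push_cast; ring
    rw [e1]
    apply mul_le_mul_of_nonneg_left _ (by positivity)
    have hn1r : (n : ℝ) + 1 ≤ Q * ((N : ℝ) + 2) + 2 := by exact_mod_cast hn1
    have hrz : (r : ℝ) ≤ z := by
      refine le_of_pow_le_pow_left₀ (by omega : J ≠ 0) hz0.le ?_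
      calc (r : ℝ) ^ J ≤ (1 - ε) * z ^ J := hr2
        _ ≤ z ^ J := by nlinarith
    have hQr : (Q : ℝ) = r * (r : ℝ) ^ J := by rw [hQ]; push_cast; ring
    have hQle : (Q : ℝ) ≤ z * ((1 - ε) * z ^ J) := by
      rw [hQr]
      exact mul_le_mul hrz hr2 (by positivity) hz0.le
    have hQ2 : (2 : ℝ) ≤ Q := by
      have : 2 ≤ Q := by omega
      exact_mod_cast this
    have e2 : (1 - ε) * (z ^ J + 2) ≤ z ^ J := by nlinarith
    calc (n : ℝ) + 1 ≤ Q * ((N : ℝ) + 2) + 2 := hn1r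
      _ ≤ Q * (z ^ J + 2) := by nlinarith
      _ ≤ (z * ((1 - ε) * z ^ J)) * (z ^ J + 2) := mul_le_mul_of_nonneg_right hQle (by linarith)
      _ = (z * z ^ J) * ((1 - ε) * (z ^ J + 2)) := by ring
      _ ≤ (z * z ^ J) * z ^ J := mul_le_mul_of_nonneg_left e2 (by positivity)
      _ = z ^ (2 * J + 1) := by ring
  · -- number of colours
    have h4 : 4 ≤ 2 ^ t := by
      calc 4 = 2 ^ 2 := by norm_num
        _ ≤ 2 ^ t := Nat.pow_le_pow_right (by norm_num) ht2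
    have e1 : (((2 ^ t - 2) * (r ^ J * r ^ J * r) : ℕ) : ℝ) =
        ((2 : ℝ) ^ t - 2) * ((r : ℝ) ^ J * (r : ℝ) ^ J * r) := by
      push_cast [Nat.cast_sub (show 2 ≤ 2 ^ t by omega)]
      ring
    rw [e1]
    have hrz : (1 - 2 * ε) * z ≤ r := by
      obtain ⟨j, rfl⟩ : ∃ j, J = j + 1 := ⟨J - 1, by omega⟩
      have hrz' : (r : ℝ) ≤ z := by
        refine le_of_pow_le_pow_left₀ (by omega : j + 1 ≠ 0) hz0.le ?_
        calc (r : ℝ) ^ (j + 1) ≤ (1 - ε) * z ^ (j + 1) := hr2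
          _ ≤ z ^ (j + 1) := by nlinarith
      have hj0 : 0 < z ^ j := by positivity
      have e3 : (r : ℝ) ^ (j + 1) ≤ r * z ^ j := by
        rw [pow_succ, mul_comm]
        exact mul_le_mul_of_nonneg_left (pow_le_pow_left₀ (by positivity) hrz' j) (by positivity)
      have e4 : ((1 - 2 * ε) * z) * z ^ j ≤ r * z ^ j := by
        calc ((1 - 2 * ε) * z) * z ^ j = (1 - 2 * ε) * z ^ (j + 1) := by ring
          _ ≤ (r : ℝ) ^ (j + 1) := hr1
          _ ≤ _ := e3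
      exact le_of_mul_le_mul_right e4 hj0
    have ha : 0 ≤ 1 - 2 * ε := by linarith
    have e5 : ((1 - 2 * ε) * z ^ J) * ((1 - 2 * ε) * z ^ J) * ((1 - 2 * ε) * z) ≤
        (r : ℝ) ^ J * (r : ℝ) ^ J * r := by
      have p1 : 0 ≤ (1 - 2 * ε) * z ^ J := mul_nonneg ha hzJ0.le
      have p2 : 0 ≤ (1 - 2 * ε) * z := mul_nonneg ha hz0.le
      exact mul_le_mul (mul_le_mul hr1 hr1 p1 (by positivity)) hrz p2 (by positivity)
    have e6 : ((1 - 2 * ε) * z ^ J) * ((1 - 2 * ε) * z ^ J) * ((1 - 2 * ε) * z) =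
        (1 - 2 * ε) ^ 3 * z ^ (2 * J + 1) := by ring
    have e7 : 1 - 6 * ε ≤ (1 - 2 * ε) ^ 3 := by nlinarith [mul_pos h0 h0]
    have e8 : (1 - ε) * (2 : ℝ) ^ t ≤ (2 : ℝ) ^ t - 2 := by linarith
    have e9 : 0 < z ^ (2 * J + 1) := by positivity
    have e10 : (0 : ℝ) < 2 ^ t := by positivity
    calc (1 - 7 * ε) * (2 ^ t * z ^ (2 * J + 1))
        ≤ ((1 - ε) * (1 - 6 * ε)) * (2 ^ t * z ^ (2 * J + 1)) := by
          apply mul_le_mul_of_nonneg_right _ (by positivity)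
          nlinarith
      _ = ((1 - ε) * 2 ^ t) * ((1 - 6 * ε) * z ^ (2 * J + 1)) := by ring
      _ ≤ ((2 : ℝ) ^ t - 2) * ((1 - 2 * ε) ^ 3 * z ^ (2 * J + 1)) := by
          apply mul_le_mul e8 (mul_le_mul_of_nonneg_right e7 e9.le)
          · exact mul_nonneg (by linarith) e9.le
          · have : (0 : ℝ) ≤ (1 - ε) * 2 ^ t := mul_nonneg (by linarith) e10.le
            linarith
      _ ≤ ((2 : ℝ) ^ t - 2) * ((r : ℝ) ^ J * (r : ℝ) ^ J * r) := by
          rw [← e6]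
          apply mul_le_mul_of_nonneg_left e5
          have : (0 : ℝ) ≤ (1 - ε) * 2 ^ t := mul_nonneg (by linarith) e10.le
          linarith

/-- `2 ^ (1 / J ^ K)` -/
noncomputable def om (J K : ℕ) : ℝ := (2 : ℝ) ^ ((1 : ℝ) / ((J : ℝ) ^ K))

theorem om_pow (J K : ℕ) (hJ : 1 ≤ J) : om J K ^ (J ^ K) = 2 := by
  have hJ0 : (J : ℝ) ^ K ≠ 0 := by
    have : (0 : ℝ) < J := by exact_mod_cast hJ
    positivity
  unfold om
  rw [← Real.rpow_natCast, ← Real.rpow_mul (by norm_num)]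
  push_cast
  rw [one_div, inv_mul_cancel₀ hJ0, Real.rpow_one]

theorem om_succ_pow (J K : ℕ) (hJ : 1 ≤ J) : om J (K + 1) ^ J = om J K := by
  have hJ0 : (J : ℝ) ≠ 0 := by
    have : (0 : ℝ) < J := by exact_mod_cast hJ
    positivity
  unfold om
  rw [← Real.rpow_natCast, ← Real.rpow_mul (by norm_num)]
  congr 1
  rw [pow_succ]
  field_simp

theorem om_gt_one (J K : ℕ) (hJ : 1 ≤ J) : 1 < om J K := by
  unfold om
  apply Real.one_lt_rpow (by norm_num)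
  have : (0 : ℝ) < J := by exact_mod_cast hJ
  positivity

theorem om_zero (J : ℕ) : om J 0 = 2 := by
  unfold om; simp

theorem om_le (J K : ℕ) (hJ : 1 ≤ J) : om J K ≤ 1 + 1 / (J : ℝ) ^ K := by
  have hJ0 : (0 : ℝ) < (J : ℝ) ^ K := by
    have : (0 : ℝ) < J := by exact_mod_cast hJ
    positivity
  refine le_of_pow_le_pow_left₀ (n := J ^ K) (by positivity) (by positivity) ?_
  rw [om_pow J K hJ]
  have h3 := one_add_mul_le_pow (show (-2 : ℝ) ≤ 1 / (J : ℝ) ^ K by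
    have : (0 : ℝ) ≤ 1 / (J : ℝ) ^ K := by positivity
    linarith) (J ^ K)
  have h4 : 1 + ((J ^ K : ℕ) : ℝ) * (1 / (J : ℝ) ^ K) = 2 := by
    push_cast
    field_simp
    norm_num
  rw [h4] at h3
  exact h3

/-- thresholds of the iteration -/
def thr (J n0 t0 : ℕ) : ℕ → ℕ
  | 0 => n0
  | K + 1 => (2 * J + 1) * (thr J n0 t0 K + J ^ (K + 1)) + t0 * J ^ (K + 1)

theorem thr_ge (J n0 t0 K : ℕ) : J ^ K * n0 ≤ thr J n0 t0 K := by
  induction K with
  | zero => simp [thr]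
  | succ K ih =>
    have h1 : thr J n0 t0 (K + 1) =
      (2 * J + 1) * (thr J n0 t0 K + J ^ (K + 1)) + t0 * J ^ (K + 1) := rfl
    rw [h1]
    calc J ^ (K + 1) * n0 = J * (J ^ K * n0) := by ring
      _ ≤ J * thr J n0 t0 K := Nat.mul_le_mul_left _ ih
      _ ≤ (2 * J + 1) * (thr J n0 t0 K + J ^ (K + 1)) :=
          Nat.mul_le_mul (by omega) (by omega)
      _ ≤ _ := Nat.le_add_right _ _

theorem thr_le (J n0 t0 K : ℕ) (hJ : 1 ≤ J) :
    thr J n0 t0 K + 2 * (J + t0) * J ^ K ≤ (3 * J) ^ K * (n0 + 2 * (J + t0)) := by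
  induction K with
  | zero => simp [thr]
  | succ K ih =>
    have h1 : thr J n0 t0 (K + 1) =
      (2 * J + 1) * (thr J n0 t0 K + J ^ (K + 1)) + t0 * J ^ (K + 1) := rfl
    rw [h1]
    set x := thr J n0 t0 K
    have h2 : (2 * J + 1) * (x + J ^ (K + 1)) ≤ 3 * J * (x + J ^ (K + 1)) :=
      Nat.mul_le_mul_right _ (by omega)
    have h3 : t0 ≤ 3 * J * t0 := Nat.le_mul_of_pos_left _ (by omega)
    calc (2 * J + 1) * (x + J ^ (K + 1)) + t0 * J ^ (K + 1) + 2 * (J + t0) * J ^ (K + 1)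
        ≤ 3 * J * (x + J ^ (K + 1)) + t0 * J ^ (K + 1) + 2 * (J + t0) * J ^ (K + 1) := by
          omega
      _ = 3 * J * x + (5 * J + 3 * t0) * J ^ (K + 1) := by ring
      _ ≤ 3 * J * x + (6 * (J + t0)) * J ^ (K + 1) :=
          Nat.add_le_add_left (Nat.mul_le_mul_right _ (by omega)) _
      _ = 3 * J * (x + 2 * (J + t0) * J ^ K) := by ring
      _ ≤ 3 * J * ((3 * J) ^ K * (n0 + 2 * (J + t0))) := Nat.mul_le_mul_left _ ih
      _ = (3 * J) ^ (K + 1) * (n0 + 2 * (J + t0)) := by ring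

end Pool.Agent.Helper660_fall
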