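import Pool.Agent.Helper660_fall.Basic

/-!
Fall colourings of the cube: all numbers of colours in dimension `2 ^ k - 1`, the outer
construction over a finite field, and density tending to one in all dimensions.
-/

namespace Pool.Agent.Helper660_fall

open Finset
open Pool.Agent.TH493.Boltz hiding flip

theorem Fall.double {N P : ℕ} (h : Fall N P) : Fall (2 * N + 1) (2 * P) := by
  have := h.sum h
  rwa [← two_mul] at this

theorem Fall.double_iter {N P : ℕ} (h : Fall N P) (l : ℕ) :
    Fall (2 ^ l * (N + 1) - 1) (2 ^ l * P) := by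
  induction l with
  | zero => simpa using h
  | succ l ih =>
    have := ih.double
    have h1 : 2 * (2 ^ l * (N + 1) - 1) + 1 = 2 ^ (l + 1) * (N + 1) - 1 := by
      have : 1 ≤ 2 ^ l * (N + 1) := Nat.one_le_iff_ne_zero.mpr (by positivity)
      rw [pow_succ]
      have h2 : 2 ^ l * 2 * (N + 1) = 2 * (2 ^ l * (N + 1)) := by ring
      omega
    have h2 : 2 * (2 ^ l * P) = 2 ^ (l + 1) * P := by ring
    rwa [h1, h2] at this

theorem fall_two_pow (k : ℕ) : Fall (2 ^ k - 1) (2 ^ k) := by
  have := fall_zero.double_iter k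
  simpa using this

theorem fall_seven {P : ℕ} (h : P = 2 ∨ P = 4 ∨ P = 5 ∨ P = 6 ∨ P = 8) : Fall 7 P := by
  have h1 : Fall 1 2 := by simpa using fall_two_pow 1
  have h3 : Fall 3 4 := by simpa using fall_two_pow 2
  have h3' : Fall 3 2 := h1.mono le_rfl (by norm_num)
  rcases h with rfl | rfl | rfl | rfl | rfl
  · exact h1.mono le_rfl (by norm_num)
  · exact h3.mono (by norm_num) (by norm_num)
  · exact fall_six_five.mono (by norm_num) (by norm_num)
  · simpa using h3.sum h3'
  · simpa using h3.sum h3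

/-- Every number of colours from 4 to 14 in dimension 15. -/
theorem fall_fifteen {P : ℕ} (h4 : 4 ≤ P) (h14 : P ≤ 14) : Fall 15 P := by
  have key : ∀ {a b : ℕ}, (a = 2 ∨ a = 4 ∨ a = 5 ∨ a = 6 ∨ a = 8) →
      (b = 2 ∨ b = 4 ∨ b = 5 ∨ b = 6 ∨ b = 8) → Fall 15 (a + b) := fun ha hb => by
    simpa using (fall_seven ha).sum (fall_seven hb)
  have k2 : ∀ {a : ℕ}, (a = 2 ∨ a = 4 ∨ a = 5 ∨ a = 6 ∨ a = 8) → Fall 15 a := fun ha =>
    (fall_seven ha).mono (by omega) (by norm_num)
  interval_cases P
  · exact k2 (by norm_num)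
  · exact k2 (by norm_num)
  · exact k2 (by norm_num)
  · exact key (a := 2) (b := 5) (by norm_num) (by norm_num)
  · exact k2 (by norm_num)
  · exact key (a := 4) (b := 5) (by norm_num) (by norm_num)
  · exact key (a := 4) (b := 6) (by norm_num) (by norm_num)
  · exact key (a := 5) (b := 6) (by norm_num) (by norm_num)
  · exact key (a := 6) (b := 6) (by norm_num) (by norm_num)
  · exact key (a := 5) (b := 8) (by norm_num) (by norm_num)
  · exact key (a := 6) (b := 8) (by norm_num) (by norm_num)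

/-- Every number of colours from 4 to `2 ^ k - 2` in dimension `2 ^ k - 1`, for `k ≥ 4`. -/
theorem fall_all {k : ℕ} (hk : 4 ≤ k) : ∀ P, 4 ≤ P → P ≤ 2 ^ k - 2 → Fall (2 ^ k - 1) P := by
  induction k, hk using Nat.le_induction with
  | base => intro P h1 h2; exact fall_fifteen h1 (by simpa using h2)
  | succ k hk ih =>
    intro P h1 h2
    have h16 : 16 ≤ 2 ^ k := by
      calc 16 = 2 ^ 4 := by norm_num
        _ ≤ 2 ^ k := Nat.pow_le_pow_right (by norm_num) hk
    have e : 2 * (2 ^ k - 1) + 1 = 2 ^ (k + 1) - 1 := by rw [pow_succ]; omega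
    have hs : ∀ {a b : ℕ}, Fall (2 ^ k - 1) a → Fall (2 ^ k - 1) b →
        Fall (2 ^ (k + 1) - 1) (a + b) := fun ha hb => by
      have := ha.sum hb; rwa [e] at this
    have h2' : P ≤ 2 * 2 ^ k - 2 := by rw [pow_succ] at h2; omega
    rcases le_or_gt P (2 ^ k - 2) with hP | hP
    · exact (ih P h1 hP).mono (by omega) (by rw [pow_succ]; omega)
    rcases le_or_gt P (2 * (2 ^ k - 2)) with hP2 | hP2
    · have : P = P / 2 + (P - P / 2) := by omega
      rw [this]
      exact hs (ih _ (by omega) (by omega)) (ih _ (by omega) (by omega))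
    · have : P = 2 ^ k + (P - 2 ^ k) := by omega
      rw [this]
      exact hs (fall_two_pow k) (ih _ (by omega) (by omega))

/-- A fall colouring by a group `G` with an additional function `π` into a field `K` whose
change under the chosen flip depends only on the change of colour. -/
def FStr (K : Type) [Field K] (ι G : Type) [DecidableEq ι] [AddCommGroup G] : Prop :=
  ∃ (c : (ι → Bool) → G) (π : (ι → Bool) → K) (lam : G → K), (∀ γ, γ ≠ 0 → lam γ ≠ 0) ∧
    (∀ v, ∀ γ : G, γ ≠ 0 → ∃ i, c (TH493.Boltz.flip v i) = c v + γ ∧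
      π (TH493.Boltz.flip v i) = π v + lam γ) ∧
    ∀ v i, c (TH493.Boltz.flip v i) ≠ c v

/-- Fall colouring by a group. -/
def FCol (ι G : Type) [DecidableEq ι] [AddCommGroup G] : Prop :=
  ∃ c : (ι → Bool) → G, (∀ v, ∀ γ : G, γ ≠ 0 → ∃ i, c (TH493.Boltz.flip v i) = c v + γ) ∧
    ∀ v i, c (TH493.Boltz.flip v i) ≠ c v

theorem fstr_base (K : Type) [Field K] : FStr K Empty PUnit :=
  ⟨fun _ => 0, fun _ => 0, fun _ => 0, fun _ h => absurd (Subsingleton.elim _ _) h,
    fun _ _ h => absurd (Subsingleton.elim _ _) h, fun _ i => i.elim⟩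

/-- The outer recursion for fall colourings. -/
theorem fstr_step {K : Type} [Field K] [Fintype K] [DecidableEq K] {ι G ι₁ : Type} [Fintype ι]
    [DecidableEq ι] [DecidableEq ι₁] [AddCommGroup G] (h : FStr K ι G) (h₁ : FCol ι₁ K) :
    FStr K ((K × ι) ⊕ ι₁) (G × K) := by
  classical
  obtain ⟨c, π, lam, hlam, hc, hp⟩ := h
  obtain ⟨c₁, hc₁, hp₁⟩ := h₁
  let X : (((K × ι) ⊕ ι₁) → Bool) → K → (ι → Bool) := fun v s i => v (Sum.inl (s, i))
  let Y : (((K × ι) ⊕ ι₁) → Bool) → (ι₁ → Bool) := fun v i => v (Sum.inr i)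
  have hinjX : ∀ s, Function.Injective (fun i : ι => (Sum.inl (s, i) : (K × ι) ⊕ ι₁)) := by
    intro s a b h; simpa using h
  have XX : ∀ v s i, X (TH493.Boltz.flip v (Sum.inl (s, i))) s = TH493.Boltz.flip (X v s) i :=
    fun v s i => flip_comp (hinjX s) v i
  have XX' : ∀ v s i s', s' ≠ s → X (TH493.Boltz.flip v (Sum.inl (s, i))) s' = X v s' :=
    fun v s i s' h => flip_comp_ne (fun k => by simp [h]) v
  have XY : ∀ v i s, X (TH493.Boltz.flip v (Sum.inr i)) s = X v s := fun v i s =>
    flip_comp_ne (fun k => by simp) v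
  have YX : ∀ v s i, Y (TH493.Boltz.flip v (Sum.inl (s, i))) = Y v := fun v s i =>
    flip_comp_ne (fun k => by simp) v
  have YY : ∀ v i, Y (TH493.Boltz.flip v (Sum.inr i)) = TH493.Boltz.flip (Y v) i := fun v i =>
    flip_comp Sum.inr_injective v i
  -- general effect of changing one block on a sum over blocks
  have hsum : ∀ {A : Type} [AddCommGroup A] (F : K → (ι → Bool) → A) (v : ((K × ι) ⊕ ι₁) → Bool)
      (s : K) (i : ι) (d : A), F s (TH493.Boltz.flip (X v s) i) = F s (X v s) + d →
      ∑ s', F s' (X (TH493.Boltz.flip v (Sum.inl (s, i))) s') = ∑ s', F s' (X v s') + d := by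
    intro A _ F v s i d hd
    rw [← Finset.add_sum_erase _ _ (Finset.mem_univ s), ← Finset.add_sum_erase (a := s) _
      (fun s' => F s' (X v s')) (Finset.mem_univ s), XX, hd]
    have : ∑ s' ∈ univ.erase s, F s' (X (TH493.Boltz.flip v (Sum.inl (s, i))) s') =
        ∑ s' ∈ univ.erase s, F s' (X v s') := by
      refine Finset.sum_congr rfl fun s' hs' => ?_
      rw [XX' v s i s' (Finset.ne_of_mem_erase hs')]
    rw [this]
    abel
  refine ⟨fun v => (∑ s, c (X v s), ∑ s, s * π (X v s) + c₁ (Y v)),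
    fun v => ∑ s, π (X v s) + c₁ (Y v),
    fun γ => if γ.1 = 0 then γ.2 else lam γ.1, ?_, ?_, ?_⟩
  · rintro ⟨γ, τ⟩ hne
    by_cases hγ : γ = 0
    · subst hγ
      simp only [if_true]
      intro h0; exact hne (by rw [h0]; rfl)
    · simp only [if_neg hγ]
      exact hlam γ hγ
  · rintro v ⟨γ, τ⟩ hne
    by_cases hγ : γ = 0
    · subst hγ
      have hτ : τ ≠ 0 := fun h0 => hne (by rw [h0]; rfl)
      obtain ⟨i, hi⟩ := hc₁ (Y v) τ hτ
      refine ⟨Sum.inr i, ?_, ?_⟩
      · simp only [XY, YY, hi, Prod.mk_add_mk, add_zero, Prod.mk.injEq, true_and]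
        abel
      · simp only [XY, YY, hi, if_true]
        abel
    · have hl := hlam γ hγ
      set s : K := τ / lam γ with hs
      obtain ⟨i, hi1, hi2⟩ := hc (X v s) γ hγ
      refine ⟨Sum.inl (s, i), ?_, ?_⟩
      · beta_reduce
        rw [hsum (fun _ x => c x) v s i γ hi1,
          hsum (fun s x => s * π x) v s i (s * lam γ) (by rw [hi2]; ring), YX]
        have : s * lam γ = τ := by rw [hs]; field_simp
        rw [this]
        simp only [Prod.mk_add_mk, Prod.mk.injEq, true_and]
        abel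
      · beta_reduce
        rw [hsum (fun _ x => π x) v s i (lam γ) hi2, YX]
        simp only [if_neg hγ]
        abel
  · rintro v (⟨s, i⟩ | i) he
    · have h1 : ∑ s', c (X (TH493.Boltz.flip v (Sum.inl (s, i))) s') = ∑ s', c (X v s') :=
        congrArg Prod.fst he
      have h2 := hsum (fun _ x => c x) v s i (c (TH493.Boltz.flip (X v s) i) - c (X v s))
        (by abel)
      rw [h1] at h2
      have h3 : c (TH493.Boltz.flip (X v s) i) - c (X v s) = 0 := by
        have := h2.symm; simpa using this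
      exact hp _ _ (sub_eq_zero.mp h3)
    · have h1 : ∑ s, s * π (X (TH493.Boltz.flip v (Sum.inr i)) s) +
          c₁ (Y (TH493.Boltz.flip v (Sum.inr i))) = ∑ s, s * π (X v s) + c₁ (Y v) :=
        congrArg Prod.snd he
      simp only [XY, YY] at h1
      exact hp₁ _ _ (add_left_cancel h1)

theorem Fall.fcol {N P : ℕ} (h : Fall N P) {K : Type} [AddCommGroup K] [Fintype K]
    (hK : Fintype.card K = P) : FCol (Fin N) K := by
  obtain ⟨c, hc⟩ := h
  have e : Fin P ≃ K := (Fintype.equivFinOfCardEq hK).symm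
  have h2 := hc.transport (Equiv.refl (Fin N)) e
  refine ⟨fun v => e (c v), fun v γ hγ => ?_, fun v i => h2.2 v i⟩
  exact h2.1 v (e (c v) + γ) (fun h => hγ (by simpa using h))

/-- The outer construction over the field `K` with inner fall colouring. -/
theorem fall_outer {N q : ℕ} (h : Fall N q) (K : Type) [Field K] [Fintype K]
    (hq : Fintype.card K = q) (m : ℕ) : Fall (outerLen q N m) (q ^ m) := by
  classical
  have hK : FCol (Fin N) K := h.fcol hq
  have key : ∀ m : ℕ, ∃ (ι G : Type) (_ : Fintype ι) (_ : DecidableEq ι) (_ : Fintype G)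
      (_ : AddCommGroup G), Fintype.card ι = outerLen q N m ∧
      Fintype.card G = q ^ m ∧ FStr K ι G := by
    intro m
    induction m with
    | zero =>
      exact ⟨Empty, PUnit, inferInstance, inferInstance, inferInstance, inferInstance,
        rfl, by simp, fstr_base K⟩
    | succ m ih =>
      obtain ⟨ι, G, j1, j2, j3, j4, e2, e3, e4⟩ := ih
      refine ⟨(K × ι) ⊕ Fin N, G × K, inferInstance, inferInstance, inferInstance,
        inferInstance, ?_, ?_, fstr_step e4 hK⟩
      · rw [Fintype.card_sum, Fintype.card_prod, hq, e2, Fintype.card_fin]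
        rfl
      · rw [Fintype.card_prod, e3, hq, pow_succ]
  obtain ⟨ι, G, j1, j2, j3, j4, e2, e3, c, π, lam, _, hc, hp⟩ := key m
  refine Fall.of (c := c) ⟨fun v a ha => ?_, hp⟩ e2 e3
  obtain ⟨i, hi, _⟩ := hc v (a - c v) (sub_ne_zero.mpr ha)
  exact ⟨i, by rw [hi]; abel⟩

end Pool.Agent.Helper660_fall
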