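import Pool.Agent.Helper660_fall.Net
import Pool.Agent.Helper660_fall.Cube

/-!
Independent dominating sets of the cube within a factor `1 + exp(- c (log log k)^2)` of the
sphere covering bound.
-/

namespace Pool.Agent.Helper660_fall

open Finset Filter Topology

theorem exists_split {a c m n' t0 : ℕ} (hm : 0 < m) (hc : Nat.Coprime c m)
    (h : c * (a + m) + t0 * m ≤ n') : ∃ n t, a ≤ n ∧ t0 ≤ t ∧ n' = c * n + t * m := by
  obtain ⟨u, hu⟩ : ∃ u, c * u ≡ 1 [MOD m] := by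
    rcases Nat.lt_or_ge 1 m with h1 | h1
    · obtain ⟨u, hu⟩ := Nat.exists_mul_mod_eq_one_of_coprime hc h1
      exact ⟨u, by rw [Nat.ModEq, hu.2, Nat.mod_eq_of_lt h1]⟩
    · have : m = 1 := by omega
      subst this
      exact ⟨0, Nat.modEq_one⟩
  set n := a + (u * n' + (m - 1) * a) % m with hn
  have hn1 : n < a + m := by
    have := Nat.mod_lt (u * n' + (m - 1) * a) hm
    omega
  have hmod : c * n ≡ n' [MOD m] := by
    have e1 : n ≡ a + (u * n' + (m - 1) * a) [MOD m] := (Nat.mod_modEq _ _).add_left a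
    have e2 : a + (u * n' + (m - 1) * a) = u * n' + m * a := by
      obtain ⟨j, rfl⟩ : ∃ j, m = j + 1 := ⟨m - 1, by omega⟩
      simp only [Nat.add_sub_cancel]
      ring
    have e3 : u * n' + m * a ≡ u * n' [MOD m] := by
      have : m * a ≡ 0 [MOD m] := (Nat.modEq_zero_iff_dvd).mpr (dvd_mul_right m a)
      simpa using this.add_left (u * n')
    have e4 : n ≡ u * n' [MOD m] := e1.trans (e2 ▸ e3)
    have e5 : c * n ≡ c * (u * n') [MOD m] := e4.mul_left c
    have e6 : c * (u * n') ≡ n' [MOD m] := by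
      have := hu.mul_right n'
      rw [one_mul] at this
      rwa [← mul_assoc]
    exact e5.trans e6
  have hle : c * n + t0 * m ≤ n' := by
    have : c * n ≤ c * (a + m) := Nat.mul_le_mul_left _ hn1.le
    omega
  obtain ⟨t, ht⟩ : m ∣ n' - c * n := (Nat.modEq_iff_dvd' (by omega)).mp hmod
  refine ⟨n, t, Nat.le_add_right _ _, ?_, ?_⟩
  · have : t0 * m ≤ t * m := by
      have : m * t = t * m := mul_comm _ _
      omega
    exact Nat.le_of_mul_le_mul_right this hm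
  · have : m * t = t * m := mul_comm _ _
    omega

theorem net {A : ℕ} (hA : 100 ≤ A) (hW : Window A) {J b0 t0 : ℕ} {ε : ℝ} (hJ : 1 ≤ J)
    (h0 : 0 < ε) (hb0 : ((A : ℝ) * J / ε) ^ A ≤ 2 ^ b0) (ht0 : 2 ≤ ε * 2 ^ t0)
    (hb4 : 4 ≤ J * b0) (hn0 : 2 ≤ ε * 2 ^ (J * b0)) :
    ∀ K : ℕ, 7 ^ K * ε ≤ 7 / 8 → ∀ n : ℕ, thr J (J * b0) t0 K ≤ n →
      Good (7 ^ K * ε) (om J K ^ n) := by
  intro K
  induction K with
  | zero =>
    intro _ n hn
    have hn' : J * b0 ≤ n := hn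
    rw [om_zero, pow_zero, one_mul]
    refine good_two_pow (by omega) (hn0.trans ?_)
    exact mul_le_mul_of_nonneg_left (pow_le_pow_right₀ (by norm_num) hn') h0.le
  | succ K ih =>
    intro hε n' hn'
    have hε' : 7 ^ K * ε ≤ 1 / 8 := by
      rw [pow_succ] at hε
      linarith
    have hcop : Nat.Coprime (2 * J + 1) (J ^ (K + 1)) := by
      apply Nat.Coprime.pow_right
      rw [Nat.coprime_comm]
      have : Nat.Coprime J 1 := Nat.coprime_one_right J
      have h2 := (Nat.coprime_add_mul_left_right J 1 2).mpr this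
      rw [add_comm]
      rwa [mul_comm 2 J]
    obtain ⟨n, t, hn, ht, rfl⟩ := exists_split (a := thr J (J * b0) t0 K) (t0 := t0)
      (show 0 < J ^ (K + 1) by positivity) hcop hn'
    have hgood := ih (by linarith) n hn
    have hpos : 0 < 7 ^ K * ε := by positivity
    have h7 : (1 : ℝ) ≤ 7 ^ K := one_le_pow₀ (by norm_num)
    have hεle : ε ≤ 7 ^ K * ε := by nlinarith
    have hom1 := om_gt_one J (K + 1) hJ
    have hz : ((A : ℝ) * J / (7 ^ K * ε)) ^ A ≤ om J (K + 1) ^ n := by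
      calc ((A : ℝ) * J / (7 ^ K * ε)) ^ A ≤ ((A : ℝ) * J / ε) ^ A := by
            apply pow_le_pow_left₀ (by positivity)
            exact div_le_div_of_nonneg_left (by positivity) h0 hεle
        _ ≤ 2 ^ b0 := hb0
        _ = om J (K + 1) ^ (J ^ (K + 1) * b0) := by rw [pow_mul, om_pow J (K + 1) hJ]
        _ ≤ om J (K + 1) ^ n := by
            apply pow_le_pow_right₀ hom1.le
            have := thr_ge J (J * b0) t0 K
            calc J ^ (K + 1) * b0 = J ^ K * (J * b0) := by ring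
              _ ≤ thr J (J * b0) t0 K := this
              _ ≤ n := hn
    have hgood' : Good (7 ^ K * ε) ((om J (K + 1) ^ n) ^ J) := by
      rw [← pow_mul, mul_comm n J, pow_mul, om_succ_pow J K hJ]
      exact hgood
    have ht' : 2 ≤ (7 ^ K * ε) * 2 ^ t := by
      calc (2 : ℝ) ≤ ε * 2 ^ t0 := ht0
        _ ≤ (7 ^ K * ε) * 2 ^ t :=
          mul_le_mul hεle (pow_le_pow_right₀ (by norm_num) ht) (by positivity) hpos.le
    have hstep := good_step hA hW hJ hpos hε' hz hgood' ht'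
    have e1 : (2 : ℝ) ^ t * (om J (K + 1) ^ n) ^ (2 * J + 1) =
        om J (K + 1) ^ ((2 * J + 1) * n + t * J ^ (K + 1)) := by
      calc (2 : ℝ) ^ t * (om J (K + 1) ^ n) ^ (2 * J + 1)
          = (om J (K + 1) ^ (J ^ (K + 1))) ^ t * (om J (K + 1) ^ n) ^ (2 * J + 1) := by
            rw [om_pow J (K + 1) hJ]
        _ = _ := by ring
    rw [e1] at hstep
    have e2 : 7 * (7 ^ K * ε) = 7 ^ (K + 1) * ε := by ring
    rwa [e2] at hstep

theorem rate_aux {A : ℕ} (hA : 100 ≤ A) (hW : Window A) {J b0 t0 K k : ℕ} {ε : ℝ} (hJ : 1 ≤ J)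
    (h0 : 0 < ε) (hb0 : ((A : ℝ) * J / ε) ^ A ≤ 2 ^ b0) (ht0 : 2 ≤ ε * 2 ^ t0)
    (hb4 : 4 ≤ J * b0) (hn0 : 2 ≤ ε * 2 ^ (J * b0)) (hε : 7 ^ K * ε ≤ 1 / (8 * (J : ℝ) ^ K))
    (hk : 3 ^ K * (J * b0 + 2 * (J + t0)) ≤ Nat.log 2 (k + 1)) :
    ∃ D : Finset (Fin k → Bool),
      (∀ v : Fin k → Bool, v ∈ D ∨ ∃ u ∈ D, hammingDist u v = 1) ∧
      (∀ u ∈ D, ∀ v ∈ D, hammingDist u v ≠ 1) ∧
      (D.card : ℝ) * (k + 1) ≤ (1 + 2 / (J : ℝ) ^ K) * 2 ^ k := by
  have hJr : (1 : ℝ) ≤ J := by exact_mod_cast hJ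
  have hJK : (1 : ℝ) ≤ (J : ℝ) ^ K := one_le_pow₀ hJr
  set x : ℝ := 1 / (J : ℝ) ^ K with hx
  have hx0 : 0 < x := by positivity
  have hx1 : x ≤ 1 := by rw [hx, div_le_one (by positivity)]; exact hJK
  have hεx : 7 ^ K * ε ≤ x / 8 := by
    refine hε.trans (le_of_eq ?_)
    rw [hx]; field_simp
  have hw1 := om_gt_one J K hJ
  have hwx : om J K ≤ 1 + x := om_le J K hJ
  set w := om J K with hw
  have hw0 : 0 < w := by linarith
  set T : ℝ := (k : ℝ) + 1 with hT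
  have hT1 : 1 ≤ T := by
    have : (0 : ℝ) ≤ k := by positivity
    linarith
  obtain ⟨n, hn1, hn2⟩ := exists_nat_pow_near hT1 hw1
  have hL : (2 : ℝ) ^ (Nat.log 2 (k + 1)) ≤ T := by
    have := Nat.pow_log_le_self 2 (show k + 1 ≠ 0 by omega)
    rw [hT]
    exact_mod_cast this
  have hn3 : J ^ K * Nat.log 2 (k + 1) < n + 1 := by
    have e1 : w ^ (J ^ K * Nat.log 2 (k + 1)) < w ^ (n + 1) := by
      rw [pow_mul, hw, om_pow J K hJ, ← hw]
      exact lt_of_le_of_lt hL hn2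
    exact (pow_lt_pow_iff_right₀ hw1).mp e1
  have hthr : thr J (J * b0) t0 K ≤ n := by
    have e1 := thr_le J (J * b0) t0 K hJ
    have e2 : (3 * J) ^ K * (J * b0 + 2 * (J + t0)) =
        J ^ K * (3 ^ K * (J * b0 + 2 * (J + t0))) := by rw [mul_pow]; ring
    have e3 := Nat.mul_le_mul_left (J ^ K) hk
    omega
  obtain ⟨N, R, hF, hN, hR⟩ := net hA hW hJ h0 hb0 ht0 hb4 hn0 K (by linarith) n hthr
  have hwn : (16 : ℝ) ≤ w ^ n := by
    have e1 : J ^ K * (J * b0) ≤ n := (thr_ge J (J * b0) t0 K).trans hthr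
    calc (16 : ℝ) = 2 ^ 4 := by norm_num
      _ ≤ 2 ^ (J * b0) := pow_le_pow_right₀ (by norm_num) hb4
      _ = (w ^ (J ^ K)) ^ (J * b0) := by rw [hw, om_pow J K hJ]
      _ = w ^ (J ^ K * (J * b0)) := (pow_mul _ _ _).symm
      _ ≤ w ^ n := pow_le_pow_right₀ hw1.le e1
  have hR1 : (1 - x / 8) * w ^ n ≤ R := by
    refine le_trans ?_ hR
    apply mul_le_mul_of_nonneg_right _ (by positivity)
    linarith
  have hR4 : 4 ≤ R := by
    have : (4 : ℝ) ≤ R := by nlinarith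
    exact_mod_cast this
  have hNk : N ≤ k := by
    have : (N : ℝ) ≤ k := by linarith
    exact_mod_cast this
  obtain ⟨D, hD1, hD2, hD3⟩ := ((hF R hR4 le_rfl).mono (by omega) hNk).code
  refine ⟨D, hD1, hD2, ?_⟩
  have hD3' : (D.card : ℝ) * R ≤ 2 ^ k := by exact_mod_cast hD3
  have hD0 : (0 : ℝ) ≤ D.card := by positivity
  have hTw : T ≤ (1 + x) * w ^ n := by
    calc T ≤ w ^ (n + 1) := hn2.le
      _ = w * w ^ n := by rw [pow_succ, mul_comm]
      _ ≤ (1 + x) * w ^ n := mul_le_mul_of_nonneg_right hwx (by positivity)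
  have hx8 : 0 < 1 - x / 8 := by linarith
  have h5 : (1 - x / 8) * (D.card * T) ≤ (1 + x) * 2 ^ k := by
    calc (1 - x / 8) * (D.card * T) ≤ (1 - x / 8) * (D.card * ((1 + x) * w ^ n)) := by
          apply mul_le_mul_of_nonneg_left _ hx8.le
          exact mul_le_mul_of_nonneg_left hTw hD0
      _ = (1 + x) * (D.card * ((1 - x / 8) * w ^ n)) := by ring
      _ ≤ (1 + x) * (D.card * R) := by
          apply mul_le_mul_of_nonneg_left _ (by linarith)
          exact mul_le_mul_of_nonneg_left hR1 hD0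
      _ ≤ (1 + x) * 2 ^ k := mul_le_mul_of_nonneg_left hD3' (by linarith)
  have h6 : (1 + x) * (2 : ℝ) ^ k ≤ (1 - x / 8) * ((1 + 2 * x) * 2 ^ k) := by
    have : (0 : ℝ) < 2 ^ k := by positivity
    have h7 : 1 + x ≤ (1 - x / 8) * (1 + 2 * x) := by nlinarith
    calc (1 + x) * (2 : ℝ) ^ k ≤ ((1 - x / 8) * (1 + 2 * x)) * 2 ^ k :=
          mul_le_mul_of_nonneg_right h7 this.le
      _ = _ := by ring
  have h8 := le_of_mul_le_mul_left (h5.trans h6) hx8
  have h9 : 2 / (J : ℝ) ^ K = 2 * x := by rw [hx]; ring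
  rw [h9]
  exact h8

end Pool.Agent.Helper660_fall
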