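import Pool.Agent.Helper660_fall.Rate

/-!
Choice of the parameters.
-/

namespace Pool.Agent.Helper660_fall

open Finset Filter Topology

theorem exists_K0 (C : ℕ) : ∃ K0 : ℕ, ∀ K : ℕ, K0 ≤ K → 48 ^ K * (C * (K + 1) ^ 2) ≤ 64 ^ K := by
  have h1 : Tendsto (fun n : ℕ => (n : ℝ) ^ 2 * (3 / 4 : ℝ) ^ n) atTop (𝓝 0) :=
    tendsto_pow_const_mul_const_pow_of_abs_lt_one 2 (by rw [abs_of_pos] <;> norm_num)
  have h2 := (tendsto_add_atTop_iff_nat 1).mpr h1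
  have h3 : (0 : ℝ) < 3 / 4 / (C + 1) := by positivity
  obtain ⟨K0, hK0⟩ := Filter.eventually_atTop.mp ((tendsto_order.1 h2).2 _ h3)
  refine ⟨K0, fun K hK => ?_⟩
  have h4 := hK0 K hK
  have hC : (0 : ℝ) < (C : ℝ) + 1 := by positivity
  rw [lt_div_iff₀ hC, pow_succ (3 / 4 : ℝ) K] at h4
  push_cast at h4
  have h5 : ((K : ℝ) + 1) ^ 2 * (3 / 4 : ℝ) ^ K * (C + 1) < 1 := by nlinarith
  have h6 : ((48 : ℝ) ^ K * (C * (K + 1) ^ 2)) ≤ 64 ^ K := by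
    have e1 : (48 : ℝ) ^ K = (3 / 4) ^ K * 64 ^ K := by rw [← mul_pow]; norm_num
    rw [e1]
    have h64 : (0 : ℝ) < 64 ^ K := by positivity
    have e2 : (3 / 4 : ℝ) ^ K * 64 ^ K * (C * (K + 1) ^ 2) =
        (((K : ℝ) + 1) ^ 2 * (3 / 4 : ℝ) ^ K * C) * 64 ^ K := by ring
    rw [e2]
    have e3 : ((K : ℝ) + 1) ^ 2 * (3 / 4 : ℝ) ^ K * C ≤ 1 := by
      have : 0 ≤ ((K : ℝ) + 1) ^ 2 * (3 / 4 : ℝ) ^ K := by positivity
      nlinarith
    calc (((K : ℝ) + 1) ^ 2 * (3 / 4 : ℝ) ^ K * C) * 64 ^ K ≤ 1 * 64 ^ K :=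
          mul_le_mul_of_nonneg_right e3 h64.le
      _ = 64 ^ K := one_mul _
  exact_mod_cast h6

theorem rate_K {A : ℕ} (hA : 100 ≤ A) (hW : Window A) {K k : ℕ}
    (hK : 48 ^ K * ((A * (A + 7) + 10) * (K + 1) ^ 2) ≤ 64 ^ K)
    (hk : 64 ^ K ≤ Nat.log 2 (k + 1)) :
    ∃ D : Finset (Fin k → Bool),
      (∀ v : Fin k → Bool, v ∈ D ∨ ∃ u ∈ D, hammingDist u v = 1) ∧
      (∀ u ∈ D, ∀ v ∈ D, hammingDist u v ≠ 1) ∧
      (D.card : ℝ) * (k + 1) ≤ (1 + 2 / (16 : ℝ) ^ (K * K)) * 2 ^ k := by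
  have hJ : 1 ≤ 16 ^ K := Nat.one_le_pow _ _ (by norm_num)
  set ε : ℝ := 1 / (8 * 7 ^ K * 16 ^ (K * K)) with hε
  have h0 : 0 < ε := by positivity
  set b0 : ℕ := (A + 7 * K + 3 + 4 * (K * K)) * A with hb0
  set t0 : ℕ := 4 + 3 * K + 4 * (K * K) with ht0
  have e16 : (16 : ℝ) ^ K = 2 ^ (4 * K) := by rw [pow_mul]; norm_num
  have e16' : (16 : ℝ) ^ (K * K) = 2 ^ (4 * (K * K)) := by
    rw [pow_mul (2 : ℝ) 4 (K * K)]; norm_num
  have e7 : (7 : ℝ) ^ K ≤ 2 ^ (3 * K) := by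
    rw [pow_mul]
    exact pow_le_pow_left₀ (by norm_num) (by norm_num) K
  have eA : (A : ℝ) ≤ 2 ^ A := by
    have : A ≤ 2 ^ A := Nat.lt_two_pow_self.le
    exact_mod_cast this
  have hJK : (((16 ^ K : ℕ) : ℝ)) ^ K = 16 ^ (K * K) := by push_cast; rw [pow_mul]
  have c1 : ((A : ℝ) * (16 ^ K : ℕ) / ε) ^ A ≤ 2 ^ b0 := by
    rw [hb0, pow_mul]
    apply pow_le_pow_left₀ (by positivity)
    have : (A : ℝ) * (16 ^ K : ℕ) / ε = A * 16 ^ K * (8 * 7 ^ K * 16 ^ (K * K)) := by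
      rw [hε]; push_cast; field_simp
    rw [this, e16, e16']
    calc (A : ℝ) * 2 ^ (4 * K) * (8 * 7 ^ K * 2 ^ (4 * (K * K)))
        ≤ 2 ^ A * 2 ^ (4 * K) * (2 ^ 3 * 2 ^ (3 * K) * 2 ^ (4 * (K * K))) := by
          apply mul_le_mul (mul_le_mul_of_nonneg_right eA (by positivity)) _ (by positivity)
            (by positivity)
          apply mul_le_mul_of_nonneg_right _ (by positivity)
          have : (8 : ℝ) = 2 ^ 3 := by norm_num
          rw [this]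
          exact mul_le_mul_of_nonneg_left e7 (by positivity)
      _ = 2 ^ (A + 7 * K + 3 + 4 * (K * K)) := by
          rw [← pow_add, ← pow_add, ← pow_add, ← pow_add]
          congr 1
          ring
  have c2 : 2 ≤ ε * 2 ^ t0 := by
    rw [hε, ht0, one_div, inv_mul_eq_div, le_div_iff₀ (by positivity), e16']
    calc (2 : ℝ) * (8 * 7 ^ K * 2 ^ (4 * (K * K))) ≤ 2 * (8 * 2 ^ (3 * K) * 2 ^ (4 * (K * K))) := by
          apply mul_le_mul_of_nonneg_left _ (by norm_num)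
          apply mul_le_mul_of_nonneg_right _ (by positivity)
          exact mul_le_mul_of_nonneg_left e7 (by norm_num)
      _ = 2 ^ (4 + 3 * K + 4 * (K * K)) := by
          rw [pow_add, pow_add]; ring
  have hb0t : t0 ≤ b0 := by
    rw [hb0, ht0]
    nlinarith [Nat.zero_le (K * K)]
  have hb0J : b0 ≤ 16 ^ K * b0 := Nat.le_mul_of_pos_left _ hJ
  have c3 : 4 ≤ 16 ^ K * b0 := by omega
  have c4 : 2 ≤ ε * 2 ^ (16 ^ K * b0) := by
    refine c2.trans (mul_le_mul_of_nonneg_left ?_ h0.le)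
    exact pow_le_pow_right₀ (by norm_num) (hb0t.trans hb0J)
  have c5 : 7 ^ K * ε ≤ 1 / (8 * ((16 ^ K : ℕ) : ℝ) ^ K) := by
    rw [hJK, hε]
    refine le_of_eq ?_
    field_simp
  have c6 : 3 ^ K * (16 ^ K * b0 + 2 * (16 ^ K + t0)) ≤ Nat.log 2 (k + 1) := by
    refine le_trans ?_ (hK.trans hk)
    have e48 : 48 ^ K = 3 ^ K * 16 ^ K := by rw [← mul_pow]; norm_num
    rw [e48, mul_assoc]
    apply Nat.mul_le_mul_left
    have h1 : 16 ^ K * b0 + 2 * (16 ^ K + t0) ≤ 16 ^ K * (b0 + 2 + 2 * t0) := by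
      have : t0 ≤ 16 ^ K * t0 := Nat.le_mul_of_pos_left _ hJ
      calc 16 ^ K * b0 + 2 * (16 ^ K + t0) ≤ 16 ^ K * b0 + 2 * (16 ^ K + 16 ^ K * t0) := by omega
        _ = 16 ^ K * (b0 + 2 + 2 * t0) := by ring
    refine h1.trans (Nat.mul_le_mul_left _ ?_)
    have h2 : A + 7 * K + 3 + 4 * (K * K) ≤ (A + 7) * (K + 1) ^ 2 := by nlinarith [Nat.zero_le K]
    have h3 : b0 ≤ A * (A + 7) * (K + 1) ^ 2 := by
      rw [hb0]
      calc (A + 7 * K + 3 + 4 * (K * K)) * A ≤ ((A + 7) * (K + 1) ^ 2) * A :=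
            Nat.mul_le_mul_right _ h2
        _ = A * (A + 7) * (K + 1) ^ 2 := by ring
    have h4 : 2 + 2 * t0 ≤ 10 * (K + 1) ^ 2 := by
      rw [ht0]; nlinarith [Nat.zero_le K]
    calc b0 + 2 + 2 * t0 ≤ A * (A + 7) * (K + 1) ^ 2 + 10 * (K + 1) ^ 2 := by omega
      _ = (A * (A + 7) + 10) * (K + 1) ^ 2 := by ring
  obtain ⟨D, h1, h2, h3⟩ := rate_aux hA hW hJ h0 c1 c2 c3 c4 c5 c6
  rw [hJK] at h3
  exact ⟨D, h1, h2, h3⟩

theorem exp_bound {K k : ℕ} (hK : 9 ≤ K) (hk1 : 64 ^ K ≤ Nat.log 2 (k + 1))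
    (hk2 : Nat.log 2 (k + 1) < 64 ^ (K + 1)) :
    2 / (16 : ℝ) ^ (K * K) ≤ Real.exp (-(Real.log (Real.log k)) ^ 2 / 8) := by
  set L := Nat.log 2 (k + 1) with hL
  have hL64 : 64 ≤ L := by
    refine le_trans ?_ hk1
    calc 64 = 64 ^ 1 := by norm_num
      _ ≤ 64 ^ K := Nat.pow_le_pow_right (by norm_num) (by omega)
  have hk4 : 4 ≤ k := by
    have h1 : 2 ^ L ≤ k + 1 := Nat.pow_log_le_self 2 (by omega)
    have h2 : 2 ^ 3 ≤ 2 ^ L := Nat.pow_le_pow_right (by norm_num) (by omega)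
    omega
  have hk4r : (4 : ℝ) ≤ k := by exact_mod_cast hk4
  have hl1 : 0.6931471803 < Real.log 2 := Real.log_two_gt_d9
  have hl2 : Real.log 2 < 0.6931471808 := Real.log_two_lt_d9
  have hlk1 : 1 ≤ Real.log k := by
    have h1 : Real.log 4 ≤ Real.log k := Real.log_le_log (by norm_num) hk4r
    have h2 : Real.log 4 = 2 * Real.log 2 := by
      rw [show (4 : ℝ) = 2 ^ 2 by norm_num, Real.log_pow]; norm_num
    linarith
  have hlk2 : Real.log k ≤ (64 : ℝ) ^ (K + 1) := by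
    have h1 : k + 1 < 2 ^ (L + 1) := Nat.lt_pow_succ_log_self (by norm_num) _
    have h2 : (k : ℝ) ≤ 2 ^ (L + 1) := by
      have : k ≤ 2 ^ (L + 1) := by omega
      exact_mod_cast this
    have h3 : Real.log k ≤ (L + 1 : ℕ) * Real.log 2 := by
      rw [← Real.log_pow]
      exact Real.log_le_log (by linarith) h2
    have h4 : ((L + 1 : ℕ) : ℝ) ≤ 64 ^ (K + 1) := by exact_mod_cast hk2
    have h5 : (0 : ℝ) ≤ ((L + 1 : ℕ) : ℝ) := by positivity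
    nlinarith
  have hll0 : 0 ≤ Real.log (Real.log k) := Real.log_nonneg hlk1
  have hll1 : Real.log (Real.log k) ≤ (K + 1) * (6 * Real.log 2) := by
    have h1 : Real.log (Real.log k) ≤ Real.log ((64 : ℝ) ^ (K + 1)) :=
      Real.log_le_log (by linarith) hlk2
    rw [Real.log_pow, show (64 : ℝ) = 2 ^ 6 by norm_num, Real.log_pow] at h1
    push_cast at h1
    exact h1
  have hsq : Real.log (Real.log k) ^ 2 ≤ ((K + 1) * (6 * Real.log 2)) ^ 2 :=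
    pow_le_pow_left₀ hll0 hll1 2
  have hKr : (9 : ℝ) ≤ K := by exact_mod_cast hK
  have hnum : ((K + 1) * (6 * Real.log 2)) ^ 2 / 8 ≤ (4 * ((K : ℝ) * K) - 1) * Real.log 2 := by
    have e1 : ((K + 1) * (6 * Real.log 2)) ^ 2 / 8 =
        (4.5 * Real.log 2 * ((K : ℝ) + 1) ^ 2) * Real.log 2 := by ring
    rw [e1]
    apply mul_le_mul_of_nonneg_right _ (by linarith)
    have e2 : 4.5 * Real.log 2 * ((K : ℝ) + 1) ^ 2 ≤ 3.1194 * ((K : ℝ) + 1) ^ 2 := by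
      apply mul_le_mul_of_nonneg_right _ (by positivity)
      linarith
    nlinarith
  have hE : Real.log 2 - ((4 * (K * K) : ℕ) : ℝ) * Real.log 2 ≤
      -(Real.log (Real.log k)) ^ 2 / 8 := by
    push_cast
    have : -(Real.log (Real.log k)) ^ 2 / 8 ≥ -(((K + 1) * (6 * Real.log 2)) ^ 2 / 8) := by
      rw [ge_iff_le, neg_div]
      apply neg_le_neg
      exact div_le_div_of_nonneg_right hsq (by norm_num)
    linarith
  refine le_trans (le_of_eq ?_) (Real.exp_le_exp.mpr hE)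
  rw [Real.exp_sub, Real.exp_nat_mul, Real.exp_log (by norm_num), pow_mul (2 : ℝ) 4 (K * K)]
  norm_num

/-- In every large dimension there is an independent dominating set of the cube within a factor
`1 + exp(-(log log k)^2 / 8)` of the sphere covering bound. -/
theorem indep_rate : ∃ k0 : ℕ, ∀ k : ℕ, k0 ≤ k →
    ∃ D : Finset (Fin k → Bool),
      (∀ v : Fin k → Bool, v ∈ D ∨ ∃ u ∈ D, hammingDist u v = 1) ∧
      (∀ u ∈ D, ∀ v ∈ D, hammingDist u v ≠ 1) ∧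
      (D.card : ℝ) * (k + 1) ≤ (1 + Real.exp (-(Real.log (Real.log k)) ^ 2 / 8)) * 2 ^ k := by
  obtain ⟨A, hA, hW⟩ := prime_window
  obtain ⟨K0, hK0⟩ := exists_K0 (A * (A + 7) + 10)
  refine ⟨2 ^ (64 ^ (K0 + 9)), fun k hk => ?_⟩
  set L := Nat.log 2 (k + 1) with hL
  have hL1 : 64 ^ (K0 + 9) ≤ L := Nat.le_log_of_pow_le (by norm_num) (by omega)
  have hL0 : L ≠ 0 := by
    have : 0 < 64 ^ (K0 + 9) := by positivity
    omega
  set K := Nat.log 64 L with hKdef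
  have hK1 : 64 ^ K ≤ L := Nat.pow_log_le_self 64 hL0
  have hK2 : L < 64 ^ (K + 1) := Nat.lt_pow_succ_log_self (by norm_num) _
  have hKK : K0 + 9 ≤ K := Nat.le_log_of_pow_le (by norm_num) hL1
  obtain ⟨D, h1, h2, h3⟩ := rate_K hA hW (hK0 K (by omega)) hK1
  refine ⟨D, h1, h2, h3.trans ?_⟩
  have h4 := exp_bound (by omega) hK1 hK2
  apply mul_le_mul_of_nonneg_right _ (by positivity)
  linarith

end Pool.Agent.Helper660_fall
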