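import Pool.Agent.Helper660_fall.Code11

/-!
Independent dominating sets of the cube with at most `3/2` times as many elements as the sphere
covering bound, in all dimensions.
-/

namespace Pool.Agent.Helper660_fall

open Finset
open Pool.Agent.TH493.Boltz hiding flip

theorem hasID_large : ∀ N : ℕ, 7 ≤ N → ∃ M, HasID N M ∧ 2 * (M * (N + 2)) ≤ 3 * 2 ^ N := by
  intro N
  induction N using Nat.strong_induction_on with
  | _ N ih =>
    intro hN
    rcases Nat.lt_or_ge N 15 with h15 | h15
    · have f7 : Fall 7 8 := by simpa using fall_two_pow 3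
      have h6 := hasID_six
      have h11 := hasID_eleven
      have h12 : HasID 12 432 := by simpa using h11.succ (by norm_num)
      have h13 : HasID 13 768 := by simpa using h6.double
      have h14 : HasID 14 1536 := by simpa using h13.succ (by norm_num)
      interval_cases N
      · exact ⟨16, f7.hasID (by norm_num), by norm_num⟩
      · exact ⟨32, (f7.mono (by norm_num) (by norm_num)).hasID (N := 8) (by norm_num),
          by norm_num⟩
      · exact ⟨64, (f7.mono (by norm_num) (by norm_num)).hasID (N := 9) (by norm_num),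
          by norm_num⟩
      · exact ⟨128, (f7.mono (by norm_num) (by norm_num)).hasID (N := 10) (by norm_num),
          by norm_num⟩
      · exact ⟨216, h11, by norm_num⟩
      · exact ⟨432, h12, by norm_num⟩
      · exact ⟨768, h13, by norm_num⟩
      · exact ⟨1536, h14, by norm_num⟩
    · rcases Nat.even_or_odd' N with ⟨n, rfl | rfl⟩
      · obtain ⟨m, rfl⟩ : ∃ m, n = m + 1 := ⟨n - 1, by omega⟩
        obtain ⟨M, h1, h2⟩ := ih m (by omega) (by omega)
        refine ⟨2 * (2 ^ m * M), ?_, ?_⟩
        · have := h1.double.succ (by omega)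
          rwa [show 2 * m + 1 + 1 = 2 * (m + 1) by ring] at this
        · have e : 2 ^ (2 * (m + 1)) = 4 * (2 ^ m * 2 ^ m) := by
            rw [show 2 * (m + 1) = m + m + 2 by ring, pow_add, pow_add]; ring
          rw [e]
          calc 2 * (2 * (2 ^ m * M) * (2 * (m + 1) + 2))
              = 4 * 2 ^ m * (2 * (M * (m + 2))) := by ring
            _ ≤ 4 * 2 ^ m * (3 * 2 ^ m) := Nat.mul_le_mul_left _ h2
            _ = 3 * (4 * (2 ^ m * 2 ^ m)) := by ring
      · obtain ⟨M, h1, h2⟩ := ih n (by omega) (by omega)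
        refine ⟨2 ^ n * M, h1.double, ?_⟩
        have e : 2 ^ (2 * n + 1) = 2 * (2 ^ n * 2 ^ n) := by
          rw [show 2 * n + 1 = n + n + 1 by ring, pow_add, pow_add]; ring
        rw [e]
        calc 2 * (2 ^ n * M * (2 * n + 1 + 2))
            ≤ 2 * (2 ^ n * M * (2 * n + 4)) := by
              apply Nat.mul_le_mul_left
              apply Nat.mul_le_mul_left
              omega
          _ = 2 * 2 ^ n * (2 * (M * (n + 2))) := by ring
          _ ≤ 2 * 2 ^ n * (3 * 2 ^ n) := Nat.mul_le_mul_left _ h2
          _ = 3 * (2 * (2 ^ n * 2 ^ n)) := by ring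

theorem hasID_all (N : ℕ) : ∃ M, HasID N M ∧ 2 * (M * (N + 1)) ≤ 3 * 2 ^ N := by
  rcases Nat.lt_or_ge N 7 with h | h
  · have f0 : Fall 0 1 := fall_zero
    have f1 : Fall 1 2 := by simpa using fall_two_pow 1
    have f3 : Fall 3 4 := by simpa using fall_two_pow 2
    interval_cases N
    · exact ⟨1, f0.hasID (by norm_num), by norm_num⟩
    · exact ⟨1, f1.hasID (by norm_num), by norm_num⟩
    · exact ⟨2, (f1.mono (by norm_num) (by norm_num)).hasID (N := 2) (by norm_num),
        by norm_num⟩
    · exact ⟨2, f3.hasID (by norm_num), by norm_num⟩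
    · exact ⟨4, (f3.mono (by norm_num) (by norm_num)).hasID (N := 4) (by norm_num),
        by norm_num⟩
    · exact ⟨8, (f3.mono (by norm_num) (by norm_num)).hasID (N := 5) (by norm_num),
        by norm_num⟩
    · exact ⟨12, hasID_six, by norm_num⟩
  · obtain ⟨M, h1, h2⟩ := hasID_large N h
    refine ⟨M, h1, le_trans ?_ h2⟩
    apply Nat.mul_le_mul_left
    apply Nat.mul_le_mul_left
    omega

/-- In every dimension there is an independent dominating set with at most `3/2` times as many
elements as any dominating set. -/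
theorem three_halves (k : ℕ) : ∃ D : Finset (Fin k → Bool),
    (∀ v : Fin k → Bool, v ∈ D ∨ ∃ u ∈ D, hammingDist u v = 1) ∧
    (∀ u ∈ D, ∀ v ∈ D, hammingDist u v ≠ 1) ∧
    ∀ E : Finset (Fin k → Bool),
      (∀ v : Fin k → Bool, v ∈ E ∨ ∃ u ∈ E, hammingDist u v = 1) →
      2 * D.card ≤ 3 * E.card := by
  obtain ⟨M, h1, h2⟩ := hasID_all k
  obtain ⟨D, hD1, hD2, hD3⟩ := h1.code
  refine ⟨D, hD1, hD2, fun E hE => ?_⟩
  have hs := sphere_bound hE
  have h3 : 2 * D.card * (k + 1) ≤ 3 * E.card * (k + 1) := by
    calc 2 * D.card * (k + 1) ≤ 2 * M * (k + 1) := by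
          apply Nat.mul_le_mul_right
          omega
      _ = 2 * (M * (k + 1)) := by ring
      _ ≤ 3 * 2 ^ k := h2
      _ ≤ 3 * (E.card * (k + 1)) := Nat.mul_le_mul_left _ hs
      _ = 3 * E.card * (k + 1) := by ring
  exact Nat.le_of_mul_le_mul_right h3 (by omega)

end Pool.Agent.Helper660_fall
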